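import Pool.Agent.helper12.GS.Pm

/-!
Generated: constants of the corner programs of the table Q150a.
-/

namespace Pool.Agent.helper12.K150

open Pool.Agent.helper31.IA (Z)
open Pool.Agent.helper12.GS

def p0 : Pm where
  ec := ⟨6811549696, 0, 0, 0⟩
  bc := ⟨0, 0, 0, 0⟩
  nn := ⟨1099511627776, 0, 0, 0⟩
  tj := ⟨4398046511104, 0, 0, 0⟩
  ca := ⟨989453090816, 0, 0, 0⟩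
  cb := ⟨922612662272, 0, 0, 0⟩
  cc := ⟨0, 0, 0, 0⟩
  ax := ⟨0, 0, 0, 0⟩
  ay := ⟨0, 0, 0, 0⟩
  xa := ⟨0, 0, 0, 0⟩
  C2 := ⟨0, 0, 0, 0⟩
  wr := ⟨0, 615254065152, 0, 0⟩
  wi := ⟨5872294035456, 0, 0, 0⟩
  w1 := ⟨0, 49649821941760, 0, 0⟩
  h000 := ⟨0, 215053440, 0, 0⟩
  h001 := ⟨630121344, 0, 0, 0⟩
  h002 := ⟨0, 417296896, 0, 0⟩
  h003 := ⟨709282176, 0, 0, 0⟩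
  h010 := ⟨0, 547720776320, 0, 0⟩
  h011 := ⟨455178953856, 0, 0, 0⟩
  h012 := ⟨0, 0, 0, 0⟩
  h020 := ⟨0, 12862990599488, 0, 0⟩
  h021 := ⟨0, 0, 0, 0⟩
  h030 := ⟨0, 0, 0, 0⟩
  h100 := ⟨123512576, 0, 0, 0⟩
  h101 := ⟨0, 1050481792, 0, 0⟩
  h102 := ⟨0, 157327168, 0, 0⟩
  h110 := ⟨0, 48403149952, 0, 0⟩
  h111 := ⟨0, 322027462464, 0, 0⟩
  h120 := ⟨0, 0, 0, 0⟩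
  h200 := ⟨0, 229786688, 0, 0⟩
  h201 := ⟨248031616, 0, 0, 0⟩
  h202 := ⟨0, 11080640, 0, 0⟩
  h210 := ⟨25318262464, 0, 0, 0⟩
  h211 := ⟨0, 0, 0, 0⟩
  h300 := ⟨40323648, 0, 0, 0⟩
  h301 := ⟨0, 28794368, 0, 0⟩
  h310 := ⟨0, 2260914496, 0, 0⟩
  h400 := ⟨694784, 0, 0, 0⟩
  h401 := ⟨0, 462848, 0, 0⟩
  h410 := ⟨0, 0, 0, 0⟩
  h500 := ⟨0, 1038336, 0, 0⟩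
  h501 := ⟨0, 0, 0, 0⟩
  h600 := ⟨174720, 0, 0, 0⟩
  h700 := ⟨0, 0, 0, 0⟩
  h800 := ⟨0, 0, 0, 0⟩
  m000 := ⟨1097392521216, 0, 0, 0⟩
  m001 := ⟨71499776, 0, 0, 0⟩
  m002 := ⟨595132416, 0, 0, 0⟩
  m010 := ⟨545538572288, 0, 0, 0⟩
  m100 := ⟨4391108608, 0, 0, 0⟩
  m101 := ⟨8454144, 0, 0, 0⟩
  m110 := ⟨486012616704, 0, 0, 0⟩
  m200 := ⟨0, 231473152, 0, 0⟩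
  m300 := ⟨31981568, 0, 0, 0⟩
  a00 := ⟨114721882112, 0, 0, 0⟩
  a01 := ⟨226370387968, 0, 0, 0⟩
  a02 := ⟨0, 2425570263040, 0, 0⟩
  a03 := ⟨6187266605056, 0, 0, 0⟩
  a10 := ⟨7079566114816, 0, 0, 0⟩
  a11 := ⟨22744538873856, 0, 0, 0⟩
  b00 := ⟨101756960768, 0, 0, 0⟩
  b01 := ⟨178007572480, 0, 0, 0⟩
  b02 := ⟨0, 2031733178368, 0, 0⟩
  b03 := ⟨5208881627136, 0, 0, 0⟩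
  b10 := ⟨3955286278144, 0, 0, 0⟩
  b11 := ⟨25930293313536, 0, 0, 0⟩
  t00 := ⟨1344476413952, 0, 0, 0⟩
  t01 := ⟨0, 511713738752, 0, 0⟩
  t02 := ⟨0, 16834045083648, 0, 0⟩
  t03 := ⟨50001534713856, 0, 0, 0⟩
  t10 := ⟨98677813608448, 0, 0, 0⟩
  t11 := ⟨34044968042496, 0, 0, 0⟩
  s00 := ⟨1852664446976, 0, 0, 0⟩
  s01 := ⟨13106937856, 0, 0, 0⟩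
  s02 := ⟨0, 91182989312, 0, 0⟩
  s03 := ⟨901463736320, 0, 0, 0⟩
  s10 := ⟨29154257338368, 0, 0, 0⟩
  s11 := ⟨0, 54758619807744, 0, 0⟩
  g00 := ⟨24773337728, 0, 0, 0⟩
  g01 := ⟨0, 2065363456, 0, 0⟩
  g10 := ⟨5266543049984, 0, 0, 0⟩
  g11 := ⟨0, 0, 0, 0⟩
  f00 := ⟨0, 11567302080, 0, 0⟩
  f01 := ⟨104750392384, 0, 0, 0⟩
  f10 := ⟨15246171207936, 0, 0, 0⟩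
  f11 := ⟨0, 0, 0, 0⟩
  l000 := ⟨0, 0, 0, 0⟩
  l001 := ⟨0, 0, 0, 0⟩
  l002 := ⟨0, 0, 0, 0⟩
  l010 := ⟨0, 0, 0, 0⟩
  l011 := ⟨0, 0, 0, 0⟩
  l020 := ⟨0, 0, 0, 0⟩
  l100 := ⟨0, 0, 0, 0⟩
  l101 := ⟨0, 0, 0, 0⟩
  l102 := ⟨0, 0, 0, 0⟩
  l110 := ⟨0, 0, 0, 0⟩
  l111 := ⟨0, 0, 0, 0⟩
  l120 := ⟨0, 0, 0, 0⟩
  l200 := ⟨0, 0, 0, 0⟩
  l201 := ⟨0, 0, 0, 0⟩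
  l210 := ⟨0, 0, 0, 0⟩
  l300 := ⟨0, 0, 0, 0⟩
  l301 := ⟨0, 0, 0, 0⟩
  l310 := ⟨0, 0, 0, 0⟩
  l400 := ⟨0, 0, 0, 0⟩
  l401 := ⟨0, 0, 0, 0⟩
  l410 := ⟨0, 0, 0, 0⟩
  l500 := ⟨0, 0, 0, 0⟩
  l501 := ⟨0, 0, 0, 0⟩
  l510 := ⟨0, 0, 0, 0⟩
  l600 := ⟨0, 0, 0, 0⟩
  l700 := ⟨0, 0, 0, 0⟩
  l800 := ⟨0, 0, 0, 0⟩
  l900 := ⟨0, 0, 0, 0⟩
  l1000 := ⟨0, 0, 0, 0⟩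
  l1100 := ⟨0, 0, 0, 0⟩
  q00 := ⟨0, 0, 0, 0⟩
  q01 := ⟨0, 0, 0, 0⟩
  q02 := ⟨0, 0, 0, 0⟩
  q03 := ⟨0, 0, 0, 0⟩
  q10 := ⟨0, 0, 0, 0⟩
  q11 := ⟨0, 0, 0, 0⟩
  q12 := ⟨0, 0, 0, 0⟩
  q20 := ⟨0, 0, 0, 0⟩
  q21 := ⟨0, 0, 0, 0⟩
  q30 := ⟨0, 0, 0, 0⟩
  n000 := ⟨0, 0, 0, 0⟩
  n001 := ⟨0, 0, 0, 0⟩
  n002 := ⟨0, 0, 0, 0⟩
  n010 := ⟨0, 0, 0, 0⟩
  n011 := ⟨0, 0, 0, 0⟩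
  n020 := ⟨0, 0, 0, 0⟩
  n100 := ⟨0, 0, 0, 0⟩
  n101 := ⟨0, 0, 0, 0⟩
  n110 := ⟨0, 0, 0, 0⟩
  n200 := ⟨0, 0, 0, 0⟩
  n201 := ⟨0, 0, 0, 0⟩
  n210 := ⟨0, 0, 0, 0⟩
  n300 := ⟨0, 0, 0, 0⟩
  n400 := ⟨0, 0, 0, 0⟩
  n500 := ⟨0, 0, 0, 0⟩
  e00 := ⟨0, 0, 0, 0⟩
  e01 := ⟨0, 0, 0, 0⟩
  e02 := ⟨0, 0, 0, 0⟩
  e03 := ⟨0, 0, 0, 0⟩
  e10 := ⟨0, 0, 0, 0⟩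
  e11 := ⟨0, 0, 0, 0⟩
  B1 := 0

def p1 : Pm where
  ec := ⟨6811549696, 0, 0, 0⟩
  bc := ⟨0, 0, 0, 0⟩
  nn := ⟨2199023255552, 0, 0, 0⟩
  tj := ⟨6597069766656, 0, 0, 0⟩
  ca := ⟨922612662272, 0, 0, 0⟩
  cb := ⟨856577540096, 0, 0, 0⟩
  cc := ⟨0, 0, 0, 0⟩
  ax := ⟨0, 0, 0, 0⟩
  ay := ⟨0, 0, 0, 0⟩
  xa := ⟨0, 0, 0, 0⟩
  C2 := ⟨0, 0, 0, 0⟩
  wr := ⟨0, 615254065152, 0, 0⟩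
  wi := ⟨5872294035456, 0, 0, 0⟩
  w1 := ⟨0, 49649821941760, 0, 0⟩
  h000 := ⟨0, 215053440, 0, 0⟩
  h001 := ⟨630121344, 0, 0, 0⟩
  h002 := ⟨0, 417296896, 0, 0⟩
  h003 := ⟨709282176, 0, 0, 0⟩
  h010 := ⟨0, 547720776320, 0, 0⟩
  h011 := ⟨455178953856, 0, 0, 0⟩
  h012 := ⟨0, 0, 0, 0⟩
  h020 := ⟨0, 12862990599488, 0, 0⟩
  h021 := ⟨0, 0, 0, 0⟩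
  h030 := ⟨0, 0, 0, 0⟩
  h100 := ⟨123512576, 0, 0, 0⟩
  h101 := ⟨0, 1050481792, 0, 0⟩
  h102 := ⟨0, 157327168, 0, 0⟩
  h110 := ⟨0, 48403149952, 0, 0⟩
  h111 := ⟨0, 322027462464, 0, 0⟩
  h120 := ⟨0, 0, 0, 0⟩
  h200 := ⟨0, 229786688, 0, 0⟩
  h201 := ⟨248031616, 0, 0, 0⟩
  h202 := ⟨0, 11080640, 0, 0⟩
  h210 := ⟨25318262464, 0, 0, 0⟩
  h211 := ⟨0, 0, 0, 0⟩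
  h300 := ⟨40323648, 0, 0, 0⟩
  h301 := ⟨0, 28794368, 0, 0⟩
  h310 := ⟨0, 2260914496, 0, 0⟩
  h400 := ⟨694784, 0, 0, 0⟩
  h401 := ⟨0, 462848, 0, 0⟩
  h410 := ⟨0, 0, 0, 0⟩
  h500 := ⟨0, 1038336, 0, 0⟩
  h501 := ⟨0, 0, 0, 0⟩
  h600 := ⟨174720, 0, 0, 0⟩
  h700 := ⟨0, 0, 0, 0⟩
  h800 := ⟨0, 0, 0, 0⟩
  m000 := ⟨1097718431744, 0, 0, 0⟩
  m001 := ⟨0, 345243648, 0, 0⟩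
  m002 := ⟨1544683520, 0, 0, 0⟩
  m010 := ⟨509830561792, 0, 0, 0⟩
  m100 := ⟨4286185472, 0, 0, 0⟩
  m101 := ⟨17760256, 0, 0, 0⟩
  m110 := ⟨486448824320, 0, 0, 0⟩
  m200 := ⟨0, 211484672, 0, 0⟩
  m300 := ⟨29032448, 0, 0, 0⟩
  a00 := ⟨101756960768, 0, 0, 0⟩
  a01 := ⟨178007572480, 0, 0, 0⟩
  a02 := ⟨0, 2031733178368, 0, 0⟩
  a03 := ⟨5208881627136, 0, 0, 0⟩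
  a10 := ⟨3955286278144, 0, 0, 0⟩
  a11 := ⟨25930293313536, 0, 0, 0⟩
  b00 := ⟨91190788096, 0, 0, 0⟩
  b01 := ⟨114530910208, 0, 0, 0⟩
  b02 := ⟨0, 1478222872576, 0, 0⟩
  b03 := ⟨3849079160832, 0, 0, 0⟩
  b10 := ⟨1040774332416, 0, 0, 0⟩
  b11 := ⟨29862385287168, 0, 0, 0⟩
  t00 := ⟨1190401540096, 0, 0, 0⟩
  t01 := ⟨0, 515769368576, 0, 0⟩
  t02 := ⟨0, 14553677824000, 0, 0⟩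
  t03 := ⟨43392457703424, 0, 0, 0⟩
  t10 := ⟨64081269686272, 0, 0, 0⟩
  t11 := ⟨99875565797376, 0, 0, 0⟩
  s00 := ⟨3197140860928, 0, 0, 0⟩
  s01 := ⟨0, 498606800896, 0, 0⟩
  s02 := ⟨0, 16925228072960, 0, 0⟩
  s03 := ⟨50902998450176, 0, 0, 0⟩
  s10 := ⟨127832070946816, 0, 0, 0⟩
  s11 := ⟨0, 20713651765248, 0, 0⟩
  g00 := ⟨24773337728, 0, 0, 0⟩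
  g01 := ⟨0, 2065363456, 0, 0⟩
  g10 := ⟨5266543049984, 0, 0, 0⟩
  g11 := ⟨0, 0, 0, 0⟩
  f00 := ⟨0, 11567302080, 0, 0⟩
  f01 := ⟨104750392384, 0, 0, 0⟩
  f10 := ⟨15246171207936, 0, 0, 0⟩
  f11 := ⟨0, 0, 0, 0⟩
  l000 := ⟨0, 0, 0, 0⟩
  l001 := ⟨0, 0, 0, 0⟩
  l002 := ⟨0, 0, 0, 0⟩
  l010 := ⟨0, 0, 0, 0⟩
  l011 := ⟨0, 0, 0, 0⟩
  l020 := ⟨0, 0, 0, 0⟩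
  l100 := ⟨0, 0, 0, 0⟩
  l101 := ⟨0, 0, 0, 0⟩
  l102 := ⟨0, 0, 0, 0⟩
  l110 := ⟨0, 0, 0, 0⟩
  l111 := ⟨0, 0, 0, 0⟩
  l120 := ⟨0, 0, 0, 0⟩
  l200 := ⟨0, 0, 0, 0⟩
  l201 := ⟨0, 0, 0, 0⟩
  l210 := ⟨0, 0, 0, 0⟩
  l300 := ⟨0, 0, 0, 0⟩
  l301 := ⟨0, 0, 0, 0⟩
  l310 := ⟨0, 0, 0, 0⟩
  l400 := ⟨0, 0, 0, 0⟩
  l401 := ⟨0, 0, 0, 0⟩
  l410 := ⟨0, 0, 0, 0⟩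
  l500 := ⟨0, 0, 0, 0⟩
  l501 := ⟨0, 0, 0, 0⟩
  l510 := ⟨0, 0, 0, 0⟩
  l600 := ⟨0, 0, 0, 0⟩
  l700 := ⟨0, 0, 0, 0⟩
  l800 := ⟨0, 0, 0, 0⟩
  l900 := ⟨0, 0, 0, 0⟩
  l1000 := ⟨0, 0, 0, 0⟩
  l1100 := ⟨0, 0, 0, 0⟩
  q00 := ⟨0, 0, 0, 0⟩
  q01 := ⟨0, 0, 0, 0⟩
  q02 := ⟨0, 0, 0, 0⟩
  q03 := ⟨0, 0, 0, 0⟩
  q10 := ⟨0, 0, 0, 0⟩
  q11 := ⟨0, 0, 0, 0⟩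
  q12 := ⟨0, 0, 0, 0⟩
  q20 := ⟨0, 0, 0, 0⟩
  q21 := ⟨0, 0, 0, 0⟩
  q30 := ⟨0, 0, 0, 0⟩
  n000 := ⟨0, 0, 0, 0⟩
  n001 := ⟨0, 0, 0, 0⟩
  n002 := ⟨0, 0, 0, 0⟩
  n010 := ⟨0, 0, 0, 0⟩
  n011 := ⟨0, 0, 0, 0⟩
  n020 := ⟨0, 0, 0, 0⟩
  n100 := ⟨0, 0, 0, 0⟩
  n101 := ⟨0, 0, 0, 0⟩
  n110 := ⟨0, 0, 0, 0⟩
  n200 := ⟨0, 0, 0, 0⟩
  n201 := ⟨0, 0, 0, 0⟩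
  n210 := ⟨0, 0, 0, 0⟩
  n300 := ⟨0, 0, 0, 0⟩
  n400 := ⟨0, 0, 0, 0⟩
  n500 := ⟨0, 0, 0, 0⟩
  e00 := ⟨0, 0, 0, 0⟩
  e01 := ⟨0, 0, 0, 0⟩
  e02 := ⟨0, 0, 0, 0⟩
  e03 := ⟨0, 0, 0, 0⟩
  e10 := ⟨0, 0, 0, 0⟩
  e11 := ⟨0, 0, 0, 0⟩
  B1 := 0

def p2 : Pm where
  ec := ⟨6811549696, 0, 0, 0⟩
  bc := ⟨0, 0, 0, 0⟩
  nn := ⟨3298534883328, 0, 0, 0⟩
  tj := ⟨8796093022208, 0, 0, 0⟩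
  ca := ⟨856577540096, 0, 0, 0⟩
  cb := ⟨789468676096, 0, 0, 0⟩
  cc := ⟨0, 0, 0, 0⟩
  ax := ⟨0, 0, 0, 0⟩
  ay := ⟨0, 0, 0, 0⟩
  xa := ⟨0, 0, 0, 0⟩
  C2 := ⟨0, 0, 0, 0⟩
  wr := ⟨0, 615254065152, 0, 0⟩
  wi := ⟨5872294035456, 0, 0, 0⟩
  w1 := ⟨0, 49649821941760, 0, 0⟩
  h000 := ⟨0, 215053440, 0, 0⟩
  h001 := ⟨630121344, 0, 0, 0⟩
  h002 := ⟨0, 417296896, 0, 0⟩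
  h003 := ⟨709282176, 0, 0, 0⟩
  h010 := ⟨0, 547720776320, 0, 0⟩
  h011 := ⟨455178953856, 0, 0, 0⟩
  h012 := ⟨0, 0, 0, 0⟩
  h020 := ⟨0, 12862990599488, 0, 0⟩
  h021 := ⟨0, 0, 0, 0⟩
  h030 := ⟨0, 0, 0, 0⟩
  h100 := ⟨123512576, 0, 0, 0⟩
  h101 := ⟨0, 1050481792, 0, 0⟩
  h102 := ⟨0, 157327168, 0, 0⟩
  h110 := ⟨0, 48403149952, 0, 0⟩
  h111 := ⟨0, 322027462464, 0, 0⟩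
  h120 := ⟨0, 0, 0, 0⟩
  h200 := ⟨0, 229786688, 0, 0⟩
  h201 := ⟨248031616, 0, 0, 0⟩
  h202 := ⟨0, 11080640, 0, 0⟩
  h210 := ⟨25318262464, 0, 0, 0⟩
  h211 := ⟨0, 0, 0, 0⟩
  h300 := ⟨40323648, 0, 0, 0⟩
  h301 := ⟨0, 28794368, 0, 0⟩
  h310 := ⟨0, 2260914496, 0, 0⟩
  h400 := ⟨694784, 0, 0, 0⟩
  h401 := ⟨0, 462848, 0, 0⟩
  h410 := ⟨0, 0, 0, 0⟩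
  h500 := ⟨0, 1038336, 0, 0⟩
  h501 := ⟨0, 0, 0, 0⟩
  h600 := ⟨174720, 0, 0, 0⟩
  h700 := ⟨0, 0, 0, 0⟩
  h800 := ⟨0, 0, 0, 0⟩
  m000 := ⟨1097707552768, 0, 0, 0⟩
  m001 := ⟨0, 268369920, 0, 0⟩
  m002 := ⟨3171287040, 0, 0, 0⟩
  m010 := ⟨258363817984, 0, 0, 0⟩
  m100 := ⟨4242669568, 0, 0, 0⟩
  m101 := ⟨52690944, 0, 0, 0⟩
  m110 := ⟨483659743232, 0, 0, 0⟩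
  m200 := ⟨0, 204341248, 0, 0⟩
  m300 := ⟨28246016, 0, 0, 0⟩
  a00 := ⟨91190788096, 0, 0, 0⟩
  a01 := ⟨114530910208, 0, 0, 0⟩
  a02 := ⟨0, 1478222872576, 0, 0⟩
  a03 := ⟨3849079160832, 0, 0, 0⟩
  a10 := ⟨1040774332416, 0, 0, 0⟩
  a11 := ⟨29862385287168, 0, 0, 0⟩
  b00 := ⟨81996873728, 0, 0, 0⟩
  b01 := ⟨63163269120, 0, 0, 0⟩
  b02 := ⟨0, 1026143813632, 0, 0⟩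
  b03 := ⟨2747695038464, 0, 0, 0⟩
  b10 := ⟨0, 1373695574016, 0, 0⟩
  b11 := ⟨33434579042304, 0, 0, 0⟩
  t00 := ⟨1065561817088, 0, 0, 0⟩
  t01 := ⟨0, 803922444288, 0, 0⟩
  t02 := ⟨0, 10075974139904, 0, 0⟩
  t03 := ⟨31858700058624, 0, 0, 0⟩
  t10 := ⟨29097267036160, 0, 0, 0⟩
  t11 := ⟨179151773892608, 0, 0, 0⟩
  s00 := ⟨4387542401024, 0, 0, 0⟩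
  s01 := ⟨0, 1014376169472, 0, 0⟩
  s02 := ⟨0, 31478905896960, 0, 0⟩
  s03 := ⟨94295456153600, 0, 0, 0⟩
  s10 := ⟨191913340633088, 0, 0, 0⟩
  s11 := ⟨79161914032128, 0, 0, 0⟩
  g00 := ⟨24773337728, 0, 0, 0⟩
  g01 := ⟨0, 2065363456, 0, 0⟩
  g10 := ⟨5266543049984, 0, 0, 0⟩
  g11 := ⟨0, 0, 0, 0⟩
  f00 := ⟨0, 11567302080, 0, 0⟩
  f01 := ⟨104750392384, 0, 0, 0⟩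
  f10 := ⟨15246171207936, 0, 0, 0⟩
  f11 := ⟨0, 0, 0, 0⟩
  l000 := ⟨0, 0, 0, 0⟩
  l001 := ⟨0, 0, 0, 0⟩
  l002 := ⟨0, 0, 0, 0⟩
  l010 := ⟨0, 0, 0, 0⟩
  l011 := ⟨0, 0, 0, 0⟩
  l020 := ⟨0, 0, 0, 0⟩
  l100 := ⟨0, 0, 0, 0⟩
  l101 := ⟨0, 0, 0, 0⟩
  l102 := ⟨0, 0, 0, 0⟩
  l110 := ⟨0, 0, 0, 0⟩
  l111 := ⟨0, 0, 0, 0⟩
  l120 := ⟨0, 0, 0, 0⟩
  l200 := ⟨0, 0, 0, 0⟩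
  l201 := ⟨0, 0, 0, 0⟩
  l210 := ⟨0, 0, 0, 0⟩
  l300 := ⟨0, 0, 0, 0⟩
  l301 := ⟨0, 0, 0, 0⟩
  l310 := ⟨0, 0, 0, 0⟩
  l400 := ⟨0, 0, 0, 0⟩
  l401 := ⟨0, 0, 0, 0⟩
  l410 := ⟨0, 0, 0, 0⟩
  l500 := ⟨0, 0, 0, 0⟩
  l501 := ⟨0, 0, 0, 0⟩
  l510 := ⟨0, 0, 0, 0⟩
  l600 := ⟨0, 0, 0, 0⟩
  l700 := ⟨0, 0, 0, 0⟩
  l800 := ⟨0, 0, 0, 0⟩
  l900 := ⟨0, 0, 0, 0⟩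
  l1000 := ⟨0, 0, 0, 0⟩
  l1100 := ⟨0, 0, 0, 0⟩
  q00 := ⟨0, 0, 0, 0⟩
  q01 := ⟨0, 0, 0, 0⟩
  q02 := ⟨0, 0, 0, 0⟩
  q03 := ⟨0, 0, 0, 0⟩
  q10 := ⟨0, 0, 0, 0⟩
  q11 := ⟨0, 0, 0, 0⟩
  q12 := ⟨0, 0, 0, 0⟩
  q20 := ⟨0, 0, 0, 0⟩
  q21 := ⟨0, 0, 0, 0⟩
  q30 := ⟨0, 0, 0, 0⟩
  n000 := ⟨0, 0, 0, 0⟩
  n001 := ⟨0, 0, 0, 0⟩
  n002 := ⟨0, 0, 0, 0⟩
  n010 := ⟨0, 0, 0, 0⟩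
  n011 := ⟨0, 0, 0, 0⟩
  n020 := ⟨0, 0, 0, 0⟩
  n100 := ⟨0, 0, 0, 0⟩
  n101 := ⟨0, 0, 0, 0⟩
  n110 := ⟨0, 0, 0, 0⟩
  n200 := ⟨0, 0, 0, 0⟩
  n201 := ⟨0, 0, 0, 0⟩
  n210 := ⟨0, 0, 0, 0⟩
  n300 := ⟨0, 0, 0, 0⟩
  n400 := ⟨0, 0, 0, 0⟩
  n500 := ⟨0, 0, 0, 0⟩
  e00 := ⟨0, 0, 0, 0⟩
  e01 := ⟨0, 0, 0, 0⟩
  e02 := ⟨0, 0, 0, 0⟩
  e03 := ⟨0, 0, 0, 0⟩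
  e10 := ⟨0, 0, 0, 0⟩
  e11 := ⟨0, 0, 0, 0⟩
  B1 := 0

def p3 : Pm where
  ec := ⟨6811549696, 0, 0, 0⟩
  bc := ⟨0, 0, 0, 0⟩
  nn := ⟨4398046511104, 0, 0, 0⟩
  tj := ⟨10995116277760, 0, 0, 0⟩
  ca := ⟨789468676096, 0, 0, 0⟩
  cb := ⟨722359812096, 0, 0, 0⟩
  cc := ⟨0, 0, 0, 0⟩
  ax := ⟨0, 0, 0, 0⟩
  ay := ⟨0, 0, 0, 0⟩
  xa := ⟨0, 0, 0, 0⟩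
  C2 := ⟨0, 0, 0, 0⟩
  wr := ⟨0, 615254065152, 0, 0⟩
  wi := ⟨5872294035456, 0, 0, 0⟩
  w1 := ⟨0, 49649821941760, 0, 0⟩
  h000 := ⟨0, 215053440, 0, 0⟩
  h001 := ⟨630121344, 0, 0, 0⟩
  h002 := ⟨0, 417296896, 0, 0⟩
  h003 := ⟨709282176, 0, 0, 0⟩
  h010 := ⟨0, 547720776320, 0, 0⟩
  h011 := ⟨455178953856, 0, 0, 0⟩
  h012 := ⟨0, 0, 0, 0⟩
  h020 := ⟨0, 12862990599488, 0, 0⟩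
  h021 := ⟨0, 0, 0, 0⟩
  h030 := ⟨0, 0, 0, 0⟩
  h100 := ⟨123512576, 0, 0, 0⟩
  h101 := ⟨0, 1050481792, 0, 0⟩
  h102 := ⟨0, 157327168, 0, 0⟩
  h110 := ⟨0, 48403149952, 0, 0⟩
  h111 := ⟨0, 322027462464, 0, 0⟩
  h120 := ⟨0, 0, 0, 0⟩
  h200 := ⟨0, 229786688, 0, 0⟩
  h201 := ⟨248031616, 0, 0, 0⟩
  h202 := ⟨0, 11080640, 0, 0⟩
  h210 := ⟨25318262464, 0, 0, 0⟩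
  h211 := ⟨0, 0, 0, 0⟩
  h300 := ⟨40323648, 0, 0, 0⟩
  h301 := ⟨0, 28794368, 0, 0⟩
  h310 := ⟨0, 2260914496, 0, 0⟩
  h400 := ⟨694784, 0, 0, 0⟩
  h401 := ⟨0, 462848, 0, 0⟩
  h410 := ⟨0, 0, 0, 0⟩
  h500 := ⟨0, 1038336, 0, 0⟩
  h501 := ⟨0, 0, 0, 0⟩
  h600 := ⟨174720, 0, 0, 0⟩
  h700 := ⟨0, 0, 0, 0⟩
  h800 := ⟨0, 0, 0, 0⟩
  m000 := ⟨1098060726272, 0, 0, 0⟩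
  m001 := ⟨0, 497156096, 0, 0⟩
  m002 := ⟨3982295040, 0, 0, 0⟩
  m010 := ⟨283681357824, 0, 0, 0⟩
  m100 := ⟨4131586048, 0, 0, 0⟩
  m101 := ⟨57212928, 0, 0, 0⟩
  m110 := ⟨489811148800, 0, 0, 0⟩
  m200 := ⟨0, 182452224, 0, 0⟩
  m300 := ⟨25231360, 0, 0, 0⟩
  a00 := ⟨81996873728, 0, 0, 0⟩
  a01 := ⟨63163269120, 0, 0, 0⟩
  a02 := ⟨0, 1026143813632, 0, 0⟩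
  a03 := ⟨2747695038464, 0, 0, 0⟩
  a10 := ⟨0, 1373695574016, 0, 0⟩
  a11 := ⟨33434579042304, 0, 0, 0⟩
  b00 := ⟨73732456448, 0, 0, 0⟩
  b01 := ⟨34834219008, 0, 0, 0⟩
  b02 := ⟨0, 777250406400, 0, 0⟩
  b03 := ⟨2141105094656, 0, 0, 0⟩
  b10 := ⟨0, 3063828643840, 0, 0⟩
  b11 := ⟨35005805559808, 0, 0, 0⟩
  t00 := ⟨958359076864, 0, 0, 0⟩
  t01 := ⟨0, 1045742157824, 0, 0⟩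
  t02 := ⟨0, 6258609553408, 0, 0⟩
  t03 := ⟨22102769926144, 0, 0, 0⟩
  t10 := ⟨0, 113905631232, 0, 0⟩
  t11 := ⟨248743466237952, 0, 0, 0⟩
  s00 := ⟨5453104218112, 0, 0, 0⟩
  s01 := ⟨0, 1818298613760, 0, 0⟩
  s02 := ⟨0, 41554880036864, 0, 0⟩
  s03 := ⟨126154156212224, 0, 0, 0⟩
  s10 := ⟨221010607669248, 0, 0, 0⟩
  s11 := ⟨258313687924736, 0, 0, 0⟩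
  g00 := ⟨24773337728, 0, 0, 0⟩
  g01 := ⟨0, 2065363456, 0, 0⟩
  g10 := ⟨5266543049984, 0, 0, 0⟩
  g11 := ⟨0, 0, 0, 0⟩
  f00 := ⟨0, 11567302080, 0, 0⟩
  f01 := ⟨104750392384, 0, 0, 0⟩
  f10 := ⟨15246171207936, 0, 0, 0⟩
  f11 := ⟨0, 0, 0, 0⟩
  l000 := ⟨0, 0, 0, 0⟩
  l001 := ⟨0, 0, 0, 0⟩
  l002 := ⟨0, 0, 0, 0⟩
  l010 := ⟨0, 0, 0, 0⟩
  l011 := ⟨0, 0, 0, 0⟩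
  l020 := ⟨0, 0, 0, 0⟩
  l100 := ⟨0, 0, 0, 0⟩
  l101 := ⟨0, 0, 0, 0⟩
  l102 := ⟨0, 0, 0, 0⟩
  l110 := ⟨0, 0, 0, 0⟩
  l111 := ⟨0, 0, 0, 0⟩
  l120 := ⟨0, 0, 0, 0⟩
  l200 := ⟨0, 0, 0, 0⟩
  l201 := ⟨0, 0, 0, 0⟩
  l210 := ⟨0, 0, 0, 0⟩
  l300 := ⟨0, 0, 0, 0⟩
  l301 := ⟨0, 0, 0, 0⟩
  l310 := ⟨0, 0, 0, 0⟩
  l400 := ⟨0, 0, 0, 0⟩
  l401 := ⟨0, 0, 0, 0⟩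
  l410 := ⟨0, 0, 0, 0⟩
  l500 := ⟨0, 0, 0, 0⟩
  l501 := ⟨0, 0, 0, 0⟩
  l510 := ⟨0, 0, 0, 0⟩
  l600 := ⟨0, 0, 0, 0⟩
  l700 := ⟨0, 0, 0, 0⟩
  l800 := ⟨0, 0, 0, 0⟩
  l900 := ⟨0, 0, 0, 0⟩
  l1000 := ⟨0, 0, 0, 0⟩
  l1100 := ⟨0, 0, 0, 0⟩
  q00 := ⟨0, 0, 0, 0⟩
  q01 := ⟨0, 0, 0, 0⟩
  q02 := ⟨0, 0, 0, 0⟩
  q03 := ⟨0, 0, 0, 0⟩
  q10 := ⟨0, 0, 0, 0⟩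
  q11 := ⟨0, 0, 0, 0⟩
  q12 := ⟨0, 0, 0, 0⟩
  q20 := ⟨0, 0, 0, 0⟩
  q21 := ⟨0, 0, 0, 0⟩
  q30 := ⟨0, 0, 0, 0⟩
  n000 := ⟨0, 0, 0, 0⟩
  n001 := ⟨0, 0, 0, 0⟩
  n002 := ⟨0, 0, 0, 0⟩
  n010 := ⟨0, 0, 0, 0⟩
  n011 := ⟨0, 0, 0, 0⟩
  n020 := ⟨0, 0, 0, 0⟩
  n100 := ⟨0, 0, 0, 0⟩
  n101 := ⟨0, 0, 0, 0⟩
  n110 := ⟨0, 0, 0, 0⟩
  n200 := ⟨0, 0, 0, 0⟩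
  n201 := ⟨0, 0, 0, 0⟩
  n210 := ⟨0, 0, 0, 0⟩
  n300 := ⟨0, 0, 0, 0⟩
  n400 := ⟨0, 0, 0, 0⟩
  n500 := ⟨0, 0, 0, 0⟩
  e00 := ⟨0, 0, 0, 0⟩
  e01 := ⟨0, 0, 0, 0⟩
  e02 := ⟨0, 0, 0, 0⟩
  e03 := ⟨0, 0, 0, 0⟩
  e10 := ⟨0, 0, 0, 0⟩
  e11 := ⟨0, 0, 0, 0⟩
  B1 := 0

def p4 : Pm where
  ec := ⟨6811549696, 0, 0, 0⟩
  bc := ⟨0, 0, 0, 0⟩
  nn := ⟨5497558138880, 0, 0, 0⟩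
  tj := ⟨13194139533312, 0, 0, 0⟩
  ca := ⟨722359812096, 0, 0, 0⟩
  cb := ⟨655250948096, 0, 0, 0⟩
  cc := ⟨0, 0, 0, 0⟩
  ax := ⟨0, 0, 0, 0⟩
  ay := ⟨0, 0, 0, 0⟩
  xa := ⟨0, 0, 0, 0⟩
  C2 := ⟨0, 0, 0, 0⟩
  wr := ⟨0, 615254065152, 0, 0⟩
  wi := ⟨5872294035456, 0, 0, 0⟩
  w1 := ⟨0, 49649821941760, 0, 0⟩
  h000 := ⟨0, 215053440, 0, 0⟩
  h001 := ⟨630121344, 0, 0, 0⟩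
  h002 := ⟨0, 417296896, 0, 0⟩
  h003 := ⟨709282176, 0, 0, 0⟩
  h010 := ⟨0, 547720776320, 0, 0⟩
  h011 := ⟨455178953856, 0, 0, 0⟩
  h012 := ⟨0, 0, 0, 0⟩
  h020 := ⟨0, 12862990599488, 0, 0⟩
  h021 := ⟨0, 0, 0, 0⟩
  h030 := ⟨0, 0, 0, 0⟩
  h100 := ⟨123512576, 0, 0, 0⟩
  h101 := ⟨0, 1050481792, 0, 0⟩
  h102 := ⟨0, 157327168, 0, 0⟩
  h110 := ⟨0, 48403149952, 0, 0⟩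
  h111 := ⟨0, 322027462464, 0, 0⟩
  h120 := ⟨0, 0, 0, 0⟩
  h200 := ⟨0, 229786688, 0, 0⟩
  h201 := ⟨248031616, 0, 0, 0⟩
  h202 := ⟨0, 11080640, 0, 0⟩
  h210 := ⟨25318262464, 0, 0, 0⟩
  h211 := ⟨0, 0, 0, 0⟩
  h300 := ⟨40323648, 0, 0, 0⟩
  h301 := ⟨0, 28794368, 0, 0⟩
  h310 := ⟨0, 2260914496, 0, 0⟩
  h400 := ⟨694784, 0, 0, 0⟩
  h401 := ⟨0, 462848, 0, 0⟩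
  h410 := ⟨0, 0, 0, 0⟩
  h500 := ⟨0, 1038336, 0, 0⟩
  h501 := ⟨0, 0, 0, 0⟩
  h600 := ⟨174720, 0, 0, 0⟩
  h700 := ⟨0, 0, 0, 0⟩
  h800 := ⟨0, 0, 0, 0⟩
  m000 := ⟨1098396008448, 0, 0, 0⟩
  m001 := ⟨0, 652148736, 0, 0⟩
  m002 := ⟨4183490560, 0, 0, 0⟩
  m010 := ⟨290532491264, 0, 0, 0⟩
  m100 := ⟨4026859520, 0, 0, 0⟩
  m101 := ⟨61603840, 0, 0, 0⟩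
  m110 := ⟨494219296768, 0, 0, 0⟩
  m200 := ⟨0, 161153024, 0, 0⟩
  m300 := ⟨22347776, 0, 0, 0⟩
  a00 := ⟨73732456448, 0, 0, 0⟩
  a01 := ⟨34834219008, 0, 0, 0⟩
  a02 := ⟨0, 777250406400, 0, 0⟩
  a03 := ⟨2141105094656, 0, 0, 0⟩
  a10 := ⟨0, 3063828643840, 0, 0⟩
  a11 := ⟨35005805559808, 0, 0, 0⟩
  b00 := ⟨66396291072, 0, 0, 0⟩
  b01 := ⟨17887592448, 0, 0, 0⟩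
  b02 := ⟨0, 626726993920, 0, 0⟩
  b03 := ⟨1773213384704, 0, 0, 0⟩
  b10 := ⟨0, 4269670924288, 0, 0⟩
  b11 := ⟨35179063476224, 0, 0, 0⟩
  t00 := ⟨861945921536, 0, 0, 0⟩
  t01 := ⟨0, 1130235363328, 0, 0⟩
  t02 := ⟨0, 3931480457216, 0, 0⟩
  t03 := ⟨15862964158464, 0, 0, 0⟩
  t10 := ⟨0, 21041255809024, 0, 0⟩
  t11 := ⟨291045837045760, 0, 0, 0⟩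
  s00 := ⟨6411463294976, 0, 0, 0⟩
  s01 := ⟨0, 2864040771584, 0, 0⟩
  s02 := ⟨0, 47813489590272, 0, 0⟩
  s03 := ⟨148256926138368, 0, 0, 0⟩
  s10 := ⟨220896702038016, 0, 0, 0⟩
  s11 := ⟨507057154162688, 0, 0, 0⟩
  g00 := ⟨24773337728, 0, 0, 0⟩
  g01 := ⟨0, 2065363456, 0, 0⟩
  g10 := ⟨5266543049984, 0, 0, 0⟩
  g11 := ⟨0, 0, 0, 0⟩
  f00 := ⟨0, 11567302080, 0, 0⟩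
  f01 := ⟨104750392384, 0, 0, 0⟩
  f10 := ⟨15246171207936, 0, 0, 0⟩
  f11 := ⟨0, 0, 0, 0⟩
  l000 := ⟨0, 0, 0, 0⟩
  l001 := ⟨0, 0, 0, 0⟩
  l002 := ⟨0, 0, 0, 0⟩
  l010 := ⟨0, 0, 0, 0⟩
  l011 := ⟨0, 0, 0, 0⟩
  l020 := ⟨0, 0, 0, 0⟩
  l100 := ⟨0, 0, 0, 0⟩
  l101 := ⟨0, 0, 0, 0⟩
  l102 := ⟨0, 0, 0, 0⟩
  l110 := ⟨0, 0, 0, 0⟩
  l111 := ⟨0, 0, 0, 0⟩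
  l120 := ⟨0, 0, 0, 0⟩
  l200 := ⟨0, 0, 0, 0⟩
  l201 := ⟨0, 0, 0, 0⟩
  l210 := ⟨0, 0, 0, 0⟩
  l300 := ⟨0, 0, 0, 0⟩
  l301 := ⟨0, 0, 0, 0⟩
  l310 := ⟨0, 0, 0, 0⟩
  l400 := ⟨0, 0, 0, 0⟩
  l401 := ⟨0, 0, 0, 0⟩
  l410 := ⟨0, 0, 0, 0⟩
  l500 := ⟨0, 0, 0, 0⟩
  l501 := ⟨0, 0, 0, 0⟩
  l510 := ⟨0, 0, 0, 0⟩
  l600 := ⟨0, 0, 0, 0⟩
  l700 := ⟨0, 0, 0, 0⟩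
  l800 := ⟨0, 0, 0, 0⟩
  l900 := ⟨0, 0, 0, 0⟩
  l1000 := ⟨0, 0, 0, 0⟩
  l1100 := ⟨0, 0, 0, 0⟩
  q00 := ⟨0, 0, 0, 0⟩
  q01 := ⟨0, 0, 0, 0⟩
  q02 := ⟨0, 0, 0, 0⟩
  q03 := ⟨0, 0, 0, 0⟩
  q10 := ⟨0, 0, 0, 0⟩
  q11 := ⟨0, 0, 0, 0⟩
  q12 := ⟨0, 0, 0, 0⟩
  q20 := ⟨0, 0, 0, 0⟩
  q21 := ⟨0, 0, 0, 0⟩
  q30 := ⟨0, 0, 0, 0⟩
  n000 := ⟨0, 0, 0, 0⟩
  n001 := ⟨0, 0, 0, 0⟩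
  n002 := ⟨0, 0, 0, 0⟩
  n010 := ⟨0, 0, 0, 0⟩
  n011 := ⟨0, 0, 0, 0⟩
  n020 := ⟨0, 0, 0, 0⟩
  n100 := ⟨0, 0, 0, 0⟩
  n101 := ⟨0, 0, 0, 0⟩
  n110 := ⟨0, 0, 0, 0⟩
  n200 := ⟨0, 0, 0, 0⟩
  n201 := ⟨0, 0, 0, 0⟩
  n210 := ⟨0, 0, 0, 0⟩
  n300 := ⟨0, 0, 0, 0⟩
  n400 := ⟨0, 0, 0, 0⟩
  n500 := ⟨0, 0, 0, 0⟩
  e00 := ⟨0, 0, 0, 0⟩
  e01 := ⟨0, 0, 0, 0⟩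
  e02 := ⟨0, 0, 0, 0⟩
  e03 := ⟨0, 0, 0, 0⟩
  e10 := ⟨0, 0, 0, 0⟩
  e11 := ⟨0, 0, 0, 0⟩
  B1 := 0

def p5 : Pm where
  ec := ⟨6811549696, 0, 0, 0⟩
  bc := ⟨0, 0, 0, 0⟩
  nn := ⟨6597069766656, 0, 0, 0⟩
  tj := ⟨15393162788864, 0, 0, 0⟩
  ca := ⟨655250948096, 0, 0, 0⟩
  cb := ⟨589215825920, 0, 0, 0⟩
  cc := ⟨0, 0, 0, 0⟩
  ax := ⟨0, 0, 0, 0⟩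
  ay := ⟨0, 0, 0, 0⟩
  xa := ⟨0, 0, 0, 0⟩
  C2 := ⟨0, 0, 0, 0⟩
  wr := ⟨0, 615254065152, 0, 0⟩
  wi := ⟨5872294035456, 0, 0, 0⟩
  w1 := ⟨0, 49649821941760, 0, 0⟩
  h000 := ⟨0, 215053440, 0, 0⟩
  h001 := ⟨630121344, 0, 0, 0⟩
  h002 := ⟨0, 417296896, 0, 0⟩
  h003 := ⟨709282176, 0, 0, 0⟩
  h010 := ⟨0, 547720776320, 0, 0⟩
  h011 := ⟨455178953856, 0, 0, 0⟩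
  h012 := ⟨0, 0, 0, 0⟩
  h020 := ⟨0, 12862990599488, 0, 0⟩
  h021 := ⟨0, 0, 0, 0⟩
  h030 := ⟨0, 0, 0, 0⟩
  h100 := ⟨123512576, 0, 0, 0⟩
  h101 := ⟨0, 1050481792, 0, 0⟩
  h102 := ⟨0, 157327168, 0, 0⟩
  h110 := ⟨0, 48403149952, 0, 0⟩
  h111 := ⟨0, 322027462464, 0, 0⟩
  h120 := ⟨0, 0, 0, 0⟩
  h200 := ⟨0, 229786688, 0, 0⟩
  h201 := ⟨248031616, 0, 0, 0⟩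
  h202 := ⟨0, 11080640, 0, 0⟩
  h210 := ⟨25318262464, 0, 0, 0⟩
  h211 := ⟨0, 0, 0, 0⟩
  h300 := ⟨40323648, 0, 0, 0⟩
  h301 := ⟨0, 28794368, 0, 0⟩
  h310 := ⟨0, 2260914496, 0, 0⟩
  h400 := ⟨694784, 0, 0, 0⟩
  h401 := ⟨0, 462848, 0, 0⟩
  h410 := ⟨0, 0, 0, 0⟩
  h500 := ⟨0, 1038336, 0, 0⟩
  h501 := ⟨0, 0, 0, 0⟩
  h600 := ⟨174720, 0, 0, 0⟩
  h700 := ⟨0, 0, 0, 0⟩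
  h800 := ⟨0, 0, 0, 0⟩
  m000 := ⟨1098690854912, 0, 0, 0⟩
  m001 := ⟨0, 742981632, 0, 0⟩
  m002 := ⟨3962503168, 0, 0, 0⟩
  m010 := ⟨276305608704, 0, 0, 0⟩
  m100 := ⟨3931308032, 0, 0, 0⟩
  m101 := ⟨69271552, 0, 0, 0⟩
  m110 := ⟨497695719424, 0, 0, 0⟩
  m200 := ⟨0, 141361152, 0, 0⟩
  m300 := ⟨19660800, 0, 0, 0⟩
  a00 := ⟨66396291072, 0, 0, 0⟩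
  a01 := ⟨17887592448, 0, 0, 0⟩
  a02 := ⟨0, 626726993920, 0, 0⟩
  a03 := ⟨1773213384704, 0, 0, 0⟩
  a10 := ⟨0, 4269670924288, 0, 0⟩
  a11 := ⟨35179063476224, 0, 0, 0⟩
  b00 := ⟨59918909440, 0, 0, 0⟩
  b01 := ⟨6505562112, 0, 0, 0⟩
  b02 := ⟨0, 525499826176, 0, 0⟩
  b03 := ⟨1526221832192, 0, 0, 0⟩
  b10 := ⟨0, 5076378058752, 0, 0⟩
  b11 := ⟨33931899633664, 0, 0, 0⟩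
  t00 := ⟨776318353408, 0, 0, 0⟩
  t01 := ⟨0, 1115424686080, 0, 0⟩
  t02 := ⟨0, 2581258305536, 0, 0⟩
  t03 := ⟨11848245772288, 0, 0, 0⟩
  t10 := ⟨0, 36356483907584, 0, 0⟩
  t11 := ⟨314097011326976, 0, 0, 0⟩
  s00 := ⟨7273409216512, 0, 0, 0⟩
  s01 := ⟨0, 3994276134912, 0, 0⟩
  s02 := ⟨0, 51744970047488, 0, 0⟩
  s03 := ⟨164119890296832, 0, 0, 0⟩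
  s10 := ⟨199855446228992, 0, 0, 0⟩
  s11 := ⟨798102991208448, 0, 0, 0⟩
  g00 := ⟨24773337728, 0, 0, 0⟩
  g01 := ⟨0, 2065363456, 0, 0⟩
  g10 := ⟨5266543049984, 0, 0, 0⟩
  g11 := ⟨0, 0, 0, 0⟩
  f00 := ⟨0, 11567302080, 0, 0⟩
  f01 := ⟨104750392384, 0, 0, 0⟩
  f10 := ⟨15246171207936, 0, 0, 0⟩
  f11 := ⟨0, 0, 0, 0⟩
  l000 := ⟨0, 0, 0, 0⟩
  l001 := ⟨0, 0, 0, 0⟩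
  l002 := ⟨0, 0, 0, 0⟩
  l010 := ⟨0, 0, 0, 0⟩
  l011 := ⟨0, 0, 0, 0⟩
  l020 := ⟨0, 0, 0, 0⟩
  l100 := ⟨0, 0, 0, 0⟩
  l101 := ⟨0, 0, 0, 0⟩
  l102 := ⟨0, 0, 0, 0⟩
  l110 := ⟨0, 0, 0, 0⟩
  l111 := ⟨0, 0, 0, 0⟩
  l120 := ⟨0, 0, 0, 0⟩
  l200 := ⟨0, 0, 0, 0⟩
  l201 := ⟨0, 0, 0, 0⟩
  l210 := ⟨0, 0, 0, 0⟩
  l300 := ⟨0, 0, 0, 0⟩
  l301 := ⟨0, 0, 0, 0⟩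
  l310 := ⟨0, 0, 0, 0⟩
  l400 := ⟨0, 0, 0, 0⟩
  l401 := ⟨0, 0, 0, 0⟩
  l410 := ⟨0, 0, 0, 0⟩
  l500 := ⟨0, 0, 0, 0⟩
  l501 := ⟨0, 0, 0, 0⟩
  l510 := ⟨0, 0, 0, 0⟩
  l600 := ⟨0, 0, 0, 0⟩
  l700 := ⟨0, 0, 0, 0⟩
  l800 := ⟨0, 0, 0, 0⟩
  l900 := ⟨0, 0, 0, 0⟩
  l1000 := ⟨0, 0, 0, 0⟩
  l1100 := ⟨0, 0, 0, 0⟩
  q00 := ⟨0, 0, 0, 0⟩
  q01 := ⟨0, 0, 0, 0⟩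
  q02 := ⟨0, 0, 0, 0⟩
  q03 := ⟨0, 0, 0, 0⟩
  q10 := ⟨0, 0, 0, 0⟩
  q11 := ⟨0, 0, 0, 0⟩
  q12 := ⟨0, 0, 0, 0⟩
  q20 := ⟨0, 0, 0, 0⟩
  q21 := ⟨0, 0, 0, 0⟩
  q30 := ⟨0, 0, 0, 0⟩
  n000 := ⟨0, 0, 0, 0⟩
  n001 := ⟨0, 0, 0, 0⟩
  n002 := ⟨0, 0, 0, 0⟩
  n010 := ⟨0, 0, 0, 0⟩
  n011 := ⟨0, 0, 0, 0⟩
  n020 := ⟨0, 0, 0, 0⟩
  n100 := ⟨0, 0, 0, 0⟩
  n101 := ⟨0, 0, 0, 0⟩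
  n110 := ⟨0, 0, 0, 0⟩
  n200 := ⟨0, 0, 0, 0⟩
  n201 := ⟨0, 0, 0, 0⟩
  n210 := ⟨0, 0, 0, 0⟩
  n300 := ⟨0, 0, 0, 0⟩
  n400 := ⟨0, 0, 0, 0⟩
  n500 := ⟨0, 0, 0, 0⟩
  e00 := ⟨0, 0, 0, 0⟩
  e01 := ⟨0, 0, 0, 0⟩
  e02 := ⟨0, 0, 0, 0⟩
  e03 := ⟨0, 0, 0, 0⟩
  e10 := ⟨0, 0, 0, 0⟩
  e11 := ⟨0, 0, 0, 0⟩
  B1 := 0

def p6 : Pm where
  ec := ⟨6811549696, 0, 0, 0⟩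
  bc := ⟨0, 0, 0, 0⟩
  nn := ⟨7696581394432, 0, 0, 0⟩
  tj := ⟨17592186044416, 0, 0, 0⟩
  ca := ⟨589215825920, 0, 0, 0⟩
  cb := ⟨522375397376, 0, 0, 0⟩
  cc := ⟨0, 0, 0, 0⟩
  ax := ⟨0, 0, 0, 0⟩
  ay := ⟨0, 0, 0, 0⟩
  xa := ⟨0, 0, 0, 0⟩
  C2 := ⟨0, 0, 0, 0⟩
  wr := ⟨0, 615254065152, 0, 0⟩
  wi := ⟨5872294035456, 0, 0, 0⟩
  w1 := ⟨0, 49649821941760, 0, 0⟩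
  h000 := ⟨0, 215053440, 0, 0⟩
  h001 := ⟨630121344, 0, 0, 0⟩
  h002 := ⟨0, 417296896, 0, 0⟩
  h003 := ⟨709282176, 0, 0, 0⟩
  h010 := ⟨0, 547720776320, 0, 0⟩
  h011 := ⟨455178953856, 0, 0, 0⟩
  h012 := ⟨0, 0, 0, 0⟩
  h020 := ⟨0, 12862990599488, 0, 0⟩
  h021 := ⟨0, 0, 0, 0⟩
  h030 := ⟨0, 0, 0, 0⟩
  h100 := ⟨123512576, 0, 0, 0⟩
  h101 := ⟨0, 1050481792, 0, 0⟩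
  h102 := ⟨0, 157327168, 0, 0⟩
  h110 := ⟨0, 48403149952, 0, 0⟩
  h111 := ⟨0, 322027462464, 0, 0⟩
  h120 := ⟨0, 0, 0, 0⟩
  h200 := ⟨0, 229786688, 0, 0⟩
  h201 := ⟨248031616, 0, 0, 0⟩
  h202 := ⟨0, 11080640, 0, 0⟩
  h210 := ⟨25318262464, 0, 0, 0⟩
  h211 := ⟨0, 0, 0, 0⟩
  h300 := ⟨40323648, 0, 0, 0⟩
  h301 := ⟨0, 28794368, 0, 0⟩
  h310 := ⟨0, 2260914496, 0, 0⟩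
  h400 := ⟨694784, 0, 0, 0⟩
  h401 := ⟨0, 462848, 0, 0⟩
  h410 := ⟨0, 0, 0, 0⟩
  h500 := ⟨0, 1038336, 0, 0⟩
  h501 := ⟨0, 0, 0, 0⟩
  h600 := ⟨174720, 0, 0, 0⟩
  h700 := ⟨0, 0, 0, 0⟩
  h800 := ⟨0, 0, 0, 0⟩
  m000 := ⟨1098938253312, 0, 0, 0⟩
  m001 := ⟨0, 783745024, 0, 0⟩
  m002 := ⟨3541696512, 0, 0, 0⟩
  m010 := ⟨246409920512, 0, 0, 0⟩
  m100 := ⟨3845980160, 0, 0, 0⟩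
  m101 := ⟨79495168, 0, 0, 0⟩
  m110 := ⟨501172142080, 0, 0, 0⟩
  m200 := ⟨0, 123404288, 0, 0⟩
  m300 := ⟨17235968, 0, 0, 0⟩
  a00 := ⟨59918909440, 0, 0, 0⟩
  a01 := ⟨6505562112, 0, 0, 0⟩
  a02 := ⟨0, 525499826176, 0, 0⟩
  a03 := ⟨1526221832192, 0, 0, 0⟩
  a10 := ⟨0, 5076378058752, 0, 0⟩
  a11 := ⟨33931899633664, 0, 0, 0⟩
  b00 := ⟨54110322688, 0, 0, 0⟩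
  b01 := ⟨0, 2136735744, 0, 0⟩
  b02 := ⟨0, 447640895488, 0, 0⟩
  b03 := ⟨1338510934016, 0, 0, 0⟩
  b10 := ⟨0, 5619813187584, 0, 0⟩
  b11 := ⟨31845513691136, 0, 0, 0⟩
  t00 := ⟨700635152384, 0, 0, 0⟩
  t01 := ⟨0, 1047142662144, 0, 0⟩
  t02 := ⟨0, 2036514357248, 0, 0⟩
  t03 := ⟨10010888175616, 0, 0, 0⟩
  t10 := ⟨0, 47013563924480, 0, 0⟩
  t11 := ⟨318516628684800, 0, 0, 0⟩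
  s00 := ⟨8049727569920, 0, 0, 0⟩
  s01 := ⟨0, 5109700820992, 0, 0⟩
  s02 := ⟨0, 54326228353024, 0, 0⟩
  s03 := ⟨175968136069120, 0, 0, 0⟩
  s10 := ⟨163498962321408, 0, 0, 0⟩
  s11 := ⟨1112200002535424, 0, 0, 0⟩
  g00 := ⟨24773337728, 0, 0, 0⟩
  g01 := ⟨0, 2065363456, 0, 0⟩
  g10 := ⟨5266543049984, 0, 0, 0⟩
  g11 := ⟨0, 0, 0, 0⟩
  f00 := ⟨0, 11567302080, 0, 0⟩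
  f01 := ⟨104750392384, 0, 0, 0⟩
  f10 := ⟨15246171207936, 0, 0, 0⟩
  f11 := ⟨0, 0, 0, 0⟩
  l000 := ⟨0, 0, 0, 0⟩
  l001 := ⟨0, 0, 0, 0⟩
  l002 := ⟨0, 0, 0, 0⟩
  l010 := ⟨0, 0, 0, 0⟩
  l011 := ⟨0, 0, 0, 0⟩
  l020 := ⟨0, 0, 0, 0⟩
  l100 := ⟨0, 0, 0, 0⟩
  l101 := ⟨0, 0, 0, 0⟩
  l102 := ⟨0, 0, 0, 0⟩
  l110 := ⟨0, 0, 0, 0⟩
  l111 := ⟨0, 0, 0, 0⟩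
  l120 := ⟨0, 0, 0, 0⟩
  l200 := ⟨0, 0, 0, 0⟩
  l201 := ⟨0, 0, 0, 0⟩
  l210 := ⟨0, 0, 0, 0⟩
  l300 := ⟨0, 0, 0, 0⟩
  l301 := ⟨0, 0, 0, 0⟩
  l310 := ⟨0, 0, 0, 0⟩
  l400 := ⟨0, 0, 0, 0⟩
  l401 := ⟨0, 0, 0, 0⟩
  l410 := ⟨0, 0, 0, 0⟩
  l500 := ⟨0, 0, 0, 0⟩
  l501 := ⟨0, 0, 0, 0⟩
  l510 := ⟨0, 0, 0, 0⟩
  l600 := ⟨0, 0, 0, 0⟩
  l700 := ⟨0, 0, 0, 0⟩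
  l800 := ⟨0, 0, 0, 0⟩
  l900 := ⟨0, 0, 0, 0⟩
  l1000 := ⟨0, 0, 0, 0⟩
  l1100 := ⟨0, 0, 0, 0⟩
  q00 := ⟨0, 0, 0, 0⟩
  q01 := ⟨0, 0, 0, 0⟩
  q02 := ⟨0, 0, 0, 0⟩
  q03 := ⟨0, 0, 0, 0⟩
  q10 := ⟨0, 0, 0, 0⟩
  q11 := ⟨0, 0, 0, 0⟩
  q12 := ⟨0, 0, 0, 0⟩
  q20 := ⟨0, 0, 0, 0⟩
  q21 := ⟨0, 0, 0, 0⟩
  q30 := ⟨0, 0, 0, 0⟩
  n000 := ⟨0, 0, 0, 0⟩
  n001 := ⟨0, 0, 0, 0⟩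
  n002 := ⟨0, 0, 0, 0⟩
  n010 := ⟨0, 0, 0, 0⟩
  n011 := ⟨0, 0, 0, 0⟩
  n020 := ⟨0, 0, 0, 0⟩
  n100 := ⟨0, 0, 0, 0⟩
  n101 := ⟨0, 0, 0, 0⟩
  n110 := ⟨0, 0, 0, 0⟩
  n200 := ⟨0, 0, 0, 0⟩
  n201 := ⟨0, 0, 0, 0⟩
  n210 := ⟨0, 0, 0, 0⟩
  n300 := ⟨0, 0, 0, 0⟩
  n400 := ⟨0, 0, 0, 0⟩
  n500 := ⟨0, 0, 0, 0⟩
  e00 := ⟨0, 0, 0, 0⟩
  e01 := ⟨0, 0, 0, 0⟩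
  e02 := ⟨0, 0, 0, 0⟩
  e03 := ⟨0, 0, 0, 0⟩
  e10 := ⟨0, 0, 0, 0⟩
  e11 := ⟨0, 0, 0, 0⟩
  B1 := 0

def p7 : Pm where
  ec := ⟨6811549696, 0, 0, 0⟩
  bc := ⟨0, 0, 0, 0⟩
  nn := ⟨8796093022208, 0, 0, 0⟩
  tj := ⟨19791209299968, 0, 0, 0⟩
  ca := ⟨522375397376, 0, 0, 0⟩
  cb := ⟨455266533376, 0, 0, 0⟩
  cc := ⟨0, 0, 0, 0⟩
  ax := ⟨0, 0, 0, 0⟩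
  ay := ⟨0, 0, 0, 0⟩
  xa := ⟨0, 0, 0, 0⟩
  C2 := ⟨0, 0, 0, 0⟩
  wr := ⟨0, 615254065152, 0, 0⟩
  wi := ⟨5872294035456, 0, 0, 0⟩
  w1 := ⟨0, 49649821941760, 0, 0⟩
  h000 := ⟨0, 215053440, 0, 0⟩
  h001 := ⟨630121344, 0, 0, 0⟩
  h002 := ⟨0, 417296896, 0, 0⟩
  h003 := ⟨709282176, 0, 0, 0⟩
  h010 := ⟨0, 547720776320, 0, 0⟩
  h011 := ⟨455178953856, 0, 0, 0⟩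
  h012 := ⟨0, 0, 0, 0⟩
  h020 := ⟨0, 12862990599488, 0, 0⟩
  h021 := ⟨0, 0, 0, 0⟩
  h030 := ⟨0, 0, 0, 0⟩
  h100 := ⟨123512576, 0, 0, 0⟩
  h101 := ⟨0, 1050481792, 0, 0⟩
  h102 := ⟨0, 157327168, 0, 0⟩
  h110 := ⟨0, 48403149952, 0, 0⟩
  h111 := ⟨0, 322027462464, 0, 0⟩
  h120 := ⟨0, 0, 0, 0⟩
  h200 := ⟨0, 229786688, 0, 0⟩
  h201 := ⟨248031616, 0, 0, 0⟩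
  h202 := ⟨0, 11080640, 0, 0⟩
  h210 := ⟨25318262464, 0, 0, 0⟩
  h211 := ⟨0, 0, 0, 0⟩
  h300 := ⟨40323648, 0, 0, 0⟩
  h301 := ⟨0, 28794368, 0, 0⟩
  h310 := ⟨0, 2260914496, 0, 0⟩
  h400 := ⟨694784, 0, 0, 0⟩
  h401 := ⟨0, 462848, 0, 0⟩
  h410 := ⟨0, 0, 0, 0⟩
  h500 := ⟨0, 1038336, 0, 0⟩
  h501 := ⟨0, 0, 0, 0⟩
  h600 := ⟨174720, 0, 0, 0⟩
  h700 := ⟨0, 0, 0, 0⟩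
  h800 := ⟨0, 0, 0, 0⟩
  m000 := ⟨1099141218304, 0, 0, 0⟩
  m001 := ⟨0, 780140544, 0, 0⟩
  m002 := ⟨3041722368, 0, 0, 0⟩
  m010 := ⟨208922476544, 0, 0, 0⟩
  m100 := ⟨3770810368, 0, 0, 0⟩
  m101 := ⟨89587712, 0, 0, 0⟩
  m110 := ⟨505196642304, 0, 0, 0⟩
  m200 := ⟨0, 107216896, 0, 0⟩
  m300 := ⟨15007744, 0, 0, 0⟩
  a00 := ⟨54110322688, 0, 0, 0⟩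
  a01 := ⟨0, 2136735744, 0, 0⟩
  a02 := ⟨0, 447640895488, 0, 0⟩
  a03 := ⟨1338510934016, 0, 0, 0⟩
  a10 := ⟨0, 5619813187584, 0, 0⟩
  a11 := ⟨31845513691136, 0, 0, 0⟩
  b00 := ⟨48858136576, 0, 0, 0⟩
  b01 := ⟨0, 8947499008, 0, 0⟩
  b02 := ⟨0, 382501650432, 0, 0⟩
  b03 := ⟨1181381230592, 0, 0, 0⟩
  b10 := ⟨0, 5956265312256, 0, 0⟩
  b11 := ⟨29101459439616, 0, 0, 0⟩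
  t00 := ⟨632740118528, 0, 0, 0⟩
  t01 := ⟨0, 970807443456, 0, 0⟩
  t02 := ⟨0, 1755554578432, 0, 0⟩
  t03 := ⟨8959459852288, 0, 0, 0⟩
  t10 := ⟨0, 54520858017792, 0, 0⟩
  t11 := ⟨310663645364224, 0, 0, 0⟩
  s00 := ⟨8750362722304, 0, 0, 0⟩
  s01 := ⟨0, 6156843483136, 0, 0⟩
  s02 := ⟨0, 56362742710272, 0, 0⟩
  s03 := ⟨185979024244736, 0, 0, 0⟩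
  s10 := ⟨116485398396928, 0, 0, 0⟩
  s11 := ⟨1430716631220224, 0, 0, 0⟩
  g00 := ⟨24773337728, 0, 0, 0⟩
  g01 := ⟨0, 2065363456, 0, 0⟩
  g10 := ⟨5266543049984, 0, 0, 0⟩
  g11 := ⟨0, 0, 0, 0⟩
  f00 := ⟨0, 11567302080, 0, 0⟩
  f01 := ⟨104750392384, 0, 0, 0⟩
  f10 := ⟨15246171207936, 0, 0, 0⟩
  f11 := ⟨0, 0, 0, 0⟩
  l000 := ⟨0, 0, 0, 0⟩
  l001 := ⟨0, 0, 0, 0⟩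
  l002 := ⟨0, 0, 0, 0⟩
  l010 := ⟨0, 0, 0, 0⟩
  l011 := ⟨0, 0, 0, 0⟩
  l020 := ⟨0, 0, 0, 0⟩
  l100 := ⟨0, 0, 0, 0⟩
  l101 := ⟨0, 0, 0, 0⟩
  l102 := ⟨0, 0, 0, 0⟩
  l110 := ⟨0, 0, 0, 0⟩
  l111 := ⟨0, 0, 0, 0⟩
  l120 := ⟨0, 0, 0, 0⟩
  l200 := ⟨0, 0, 0, 0⟩
  l201 := ⟨0, 0, 0, 0⟩
  l210 := ⟨0, 0, 0, 0⟩
  l300 := ⟨0, 0, 0, 0⟩
  l301 := ⟨0, 0, 0, 0⟩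
  l310 := ⟨0, 0, 0, 0⟩
  l400 := ⟨0, 0, 0, 0⟩
  l401 := ⟨0, 0, 0, 0⟩
  l410 := ⟨0, 0, 0, 0⟩
  l500 := ⟨0, 0, 0, 0⟩
  l501 := ⟨0, 0, 0, 0⟩
  l510 := ⟨0, 0, 0, 0⟩
  l600 := ⟨0, 0, 0, 0⟩
  l700 := ⟨0, 0, 0, 0⟩
  l800 := ⟨0, 0, 0, 0⟩
  l900 := ⟨0, 0, 0, 0⟩
  l1000 := ⟨0, 0, 0, 0⟩
  l1100 := ⟨0, 0, 0, 0⟩
  q00 := ⟨0, 0, 0, 0⟩
  q01 := ⟨0, 0, 0, 0⟩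
  q02 := ⟨0, 0, 0, 0⟩
  q03 := ⟨0, 0, 0, 0⟩
  q10 := ⟨0, 0, 0, 0⟩
  q11 := ⟨0, 0, 0, 0⟩
  q12 := ⟨0, 0, 0, 0⟩
  q20 := ⟨0, 0, 0, 0⟩
  q21 := ⟨0, 0, 0, 0⟩
  q30 := ⟨0, 0, 0, 0⟩
  n000 := ⟨0, 0, 0, 0⟩
  n001 := ⟨0, 0, 0, 0⟩
  n002 := ⟨0, 0, 0, 0⟩
  n010 := ⟨0, 0, 0, 0⟩
  n011 := ⟨0, 0, 0, 0⟩
  n020 := ⟨0, 0, 0, 0⟩
  n100 := ⟨0, 0, 0, 0⟩
  n101 := ⟨0, 0, 0, 0⟩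
  n110 := ⟨0, 0, 0, 0⟩
  n200 := ⟨0, 0, 0, 0⟩
  n201 := ⟨0, 0, 0, 0⟩
  n210 := ⟨0, 0, 0, 0⟩
  n300 := ⟨0, 0, 0, 0⟩
  n400 := ⟨0, 0, 0, 0⟩
  n500 := ⟨0, 0, 0, 0⟩
  e00 := ⟨0, 0, 0, 0⟩
  e01 := ⟨0, 0, 0, 0⟩
  e02 := ⟨0, 0, 0, 0⟩
  e03 := ⟨0, 0, 0, 0⟩
  e10 := ⟨0, 0, 0, 0⟩
  e11 := ⟨0, 0, 0, 0⟩
  B1 := 0

def p8 : Pm where
  ec := ⟨6811549696, 0, 0, 0⟩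
  bc := ⟨0, 0, 0, 0⟩
  nn := ⟨9895604649984, 0, 0, 0⟩
  tj := ⟨21990232555520, 0, 0, 0⟩
  ca := ⟨455266533376, 0, 0, 0⟩
  cb := ⟨389231411200, 0, 0, 0⟩
  cc := ⟨0, 0, 0, 0⟩
  ax := ⟨0, 0, 0, 0⟩
  ay := ⟨0, 0, 0, 0⟩
  xa := ⟨0, 0, 0, 0⟩
  C2 := ⟨0, 0, 0, 0⟩
  wr := ⟨0, 615254065152, 0, 0⟩
  wi := ⟨5872294035456, 0, 0, 0⟩
  w1 := ⟨0, 49649821941760, 0, 0⟩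
  h000 := ⟨0, 215053440, 0, 0⟩
  h001 := ⟨630121344, 0, 0, 0⟩
  h002 := ⟨0, 417296896, 0, 0⟩
  h003 := ⟨709282176, 0, 0, 0⟩
  h010 := ⟨0, 547720776320, 0, 0⟩
  h011 := ⟨455178953856, 0, 0, 0⟩
  h012 := ⟨0, 0, 0, 0⟩
  h020 := ⟨0, 12862990599488, 0, 0⟩
  h021 := ⟨0, 0, 0, 0⟩
  h030 := ⟨0, 0, 0, 0⟩
  h100 := ⟨123512576, 0, 0, 0⟩
  h101 := ⟨0, 1050481792, 0, 0⟩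
  h102 := ⟨0, 157327168, 0, 0⟩
  h110 := ⟨0, 48403149952, 0, 0⟩
  h111 := ⟨0, 322027462464, 0, 0⟩
  h120 := ⟨0, 0, 0, 0⟩
  h200 := ⟨0, 229786688, 0, 0⟩
  h201 := ⟨248031616, 0, 0, 0⟩
  h202 := ⟨0, 11080640, 0, 0⟩
  h210 := ⟨25318262464, 0, 0, 0⟩
  h211 := ⟨0, 0, 0, 0⟩
  h300 := ⟨40323648, 0, 0, 0⟩
  h301 := ⟨0, 28794368, 0, 0⟩
  h310 := ⟨0, 2260914496, 0, 0⟩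
  h400 := ⟨694784, 0, 0, 0⟩
  h401 := ⟨0, 462848, 0, 0⟩
  h410 := ⟨0, 0, 0, 0⟩
  h500 := ⟨0, 1038336, 0, 0⟩
  h501 := ⟨0, 0, 0, 0⟩
  h600 := ⟨174720, 0, 0, 0⟩
  h700 := ⟨0, 0, 0, 0⟩
  h800 := ⟨0, 0, 0, 0⟩
  m000 := ⟨1099306565632, 0, 0, 0⟩
  m001 := ⟨0, 745930752, 0, 0⟩
  m002 := ⟨2542796800, 0, 0, 0⟩
  m010 := ⟨170509926400, 0, 0, 0⟩
  m100 := ⟨3705274368, 0, 0, 0⟩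
  m101 := ⟨95027200, 0, 0, 0⟩
  m110 := ⟨509857628160, 0, 0, 0⟩
  m200 := ⟨0, 92602368, 0, 0⟩
  m300 := ⟨13041664, 0, 0, 0⟩
  a00 := ⟨48858136576, 0, 0, 0⟩
  a01 := ⟨0, 8947499008, 0, 0⟩
  a02 := ⟨0, 382501650432, 0, 0⟩
  a03 := ⟨1181381230592, 0, 0, 0⟩
  a10 := ⟨0, 5956265312256, 0, 0⟩
  a11 := ⟨29101459439616, 0, 0, 0⟩
  b00 := ⟨44105596928, 0, 0, 0⟩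
  b01 := ⟨0, 14407630848, 0, 0⟩
  b02 := ⟨0, 326711115776, 0, 0⟩
  b03 := ⟨1046237282304, 0, 0, 0⟩
  b10 := ⟨0, 6134126280704, 0, 0⟩
  b11 := ⟨25581386858496, 0, 0, 0⟩
  t00 := ⟨571405238272, 0, 0, 0⟩
  t01 := ⟨0, 905939058688, 0, 0⟩
  t02 := ⟨0, 1494508896256, 0, 0⟩
  t03 := ⟨8120246992896, 0, 0, 0⟩
  t10 := ⟨0, 59644033433600, 0, 0⟩
  t11 := ⟨294323386318848, 0, 0, 0⟩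
  s00 := ⟨9383102840832, 0, 0, 0⟩
  s01 := ⟨0, 7127650926592, 0, 0⟩
  s02 := ⟨0, 58118297288704, 0, 0⟩
  s03 := ⟨194938484097024, 0, 0, 0⟩
  s10 := ⟨61964540379136, 0, 0, 0⟩
  s11 := ⟨1741380276584448, 0, 0, 0⟩
  g00 := ⟨24773337728, 0, 0, 0⟩
  g01 := ⟨0, 2065363456, 0, 0⟩
  g10 := ⟨5266543049984, 0, 0, 0⟩
  g11 := ⟨0, 0, 0, 0⟩
  f00 := ⟨0, 11567302080, 0, 0⟩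
  f01 := ⟨104750392384, 0, 0, 0⟩
  f10 := ⟨15246171207936, 0, 0, 0⟩
  f11 := ⟨0, 0, 0, 0⟩
  l000 := ⟨0, 0, 0, 0⟩
  l001 := ⟨0, 0, 0, 0⟩
  l002 := ⟨0, 0, 0, 0⟩
  l010 := ⟨0, 0, 0, 0⟩
  l011 := ⟨0, 0, 0, 0⟩
  l020 := ⟨0, 0, 0, 0⟩
  l100 := ⟨0, 0, 0, 0⟩
  l101 := ⟨0, 0, 0, 0⟩
  l102 := ⟨0, 0, 0, 0⟩
  l110 := ⟨0, 0, 0, 0⟩
  l111 := ⟨0, 0, 0, 0⟩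
  l120 := ⟨0, 0, 0, 0⟩
  l200 := ⟨0, 0, 0, 0⟩
  l201 := ⟨0, 0, 0, 0⟩
  l210 := ⟨0, 0, 0, 0⟩
  l300 := ⟨0, 0, 0, 0⟩
  l301 := ⟨0, 0, 0, 0⟩
  l310 := ⟨0, 0, 0, 0⟩
  l400 := ⟨0, 0, 0, 0⟩
  l401 := ⟨0, 0, 0, 0⟩
  l410 := ⟨0, 0, 0, 0⟩
  l500 := ⟨0, 0, 0, 0⟩
  l501 := ⟨0, 0, 0, 0⟩
  l510 := ⟨0, 0, 0, 0⟩
  l600 := ⟨0, 0, 0, 0⟩
  l700 := ⟨0, 0, 0, 0⟩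
  l800 := ⟨0, 0, 0, 0⟩
  l900 := ⟨0, 0, 0, 0⟩
  l1000 := ⟨0, 0, 0, 0⟩
  l1100 := ⟨0, 0, 0, 0⟩
  q00 := ⟨0, 0, 0, 0⟩
  q01 := ⟨0, 0, 0, 0⟩
  q02 := ⟨0, 0, 0, 0⟩
  q03 := ⟨0, 0, 0, 0⟩
  q10 := ⟨0, 0, 0, 0⟩
  q11 := ⟨0, 0, 0, 0⟩
  q12 := ⟨0, 0, 0, 0⟩
  q20 := ⟨0, 0, 0, 0⟩
  q21 := ⟨0, 0, 0, 0⟩
  q30 := ⟨0, 0, 0, 0⟩
  n000 := ⟨0, 0, 0, 0⟩
  n001 := ⟨0, 0, 0, 0⟩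
  n002 := ⟨0, 0, 0, 0⟩
  n010 := ⟨0, 0, 0, 0⟩
  n011 := ⟨0, 0, 0, 0⟩
  n020 := ⟨0, 0, 0, 0⟩
  n100 := ⟨0, 0, 0, 0⟩
  n101 := ⟨0, 0, 0, 0⟩
  n110 := ⟨0, 0, 0, 0⟩
  n200 := ⟨0, 0, 0, 0⟩
  n201 := ⟨0, 0, 0, 0⟩
  n210 := ⟨0, 0, 0, 0⟩
  n300 := ⟨0, 0, 0, 0⟩
  n400 := ⟨0, 0, 0, 0⟩
  n500 := ⟨0, 0, 0, 0⟩
  e00 := ⟨0, 0, 0, 0⟩
  e01 := ⟨0, 0, 0, 0⟩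
  e02 := ⟨0, 0, 0, 0⟩
  e03 := ⟨0, 0, 0, 0⟩
  e10 := ⟨0, 0, 0, 0⟩
  e11 := ⟨0, 0, 0, 0⟩
  B1 := 0

def p9 : Pm where
  ec := ⟨6811549696, 0, 0, 0⟩
  bc := ⟨0, 0, 0, 0⟩
  nn := ⟨10995116277760, 0, 0, 0⟩
  tj := ⟨24189255811072, 0, 0, 0⟩
  ca := ⟨389231411200, 0, 0, 0⟩
  cb := ⟨322122547200, 0, 0, 0⟩
  cc := ⟨0, 0, 0, 0⟩
  ax := ⟨0, 0, 0, 0⟩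
  ay := ⟨0, 0, 0, 0⟩
  xa := ⟨0, 0, 0, 0⟩
  C2 := ⟨0, 0, 0, 0⟩
  wr := ⟨0, 615254065152, 0, 0⟩
  wi := ⟨5872294035456, 0, 0, 0⟩
  w1 := ⟨0, 49649821941760, 0, 0⟩
  h000 := ⟨0, 215053440, 0, 0⟩
  h001 := ⟨630121344, 0, 0, 0⟩
  h002 := ⟨0, 417296896, 0, 0⟩
  h003 := ⟨709282176, 0, 0, 0⟩
  h010 := ⟨0, 547720776320, 0, 0⟩
  h011 := ⟨455178953856, 0, 0, 0⟩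
  h012 := ⟨0, 0, 0, 0⟩
  h020 := ⟨0, 12862990599488, 0, 0⟩
  h021 := ⟨0, 0, 0, 0⟩
  h030 := ⟨0, 0, 0, 0⟩
  h100 := ⟨123512576, 0, 0, 0⟩
  h101 := ⟨0, 1050481792, 0, 0⟩
  h102 := ⟨0, 157327168, 0, 0⟩
  h110 := ⟨0, 48403149952, 0, 0⟩
  h111 := ⟨0, 322027462464, 0, 0⟩
  h120 := ⟨0, 0, 0, 0⟩
  h200 := ⟨0, 229786688, 0, 0⟩
  h201 := ⟨248031616, 0, 0, 0⟩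
  h202 := ⟨0, 11080640, 0, 0⟩
  h210 := ⟨25318262464, 0, 0, 0⟩
  h211 := ⟨0, 0, 0, 0⟩
  h300 := ⟨40323648, 0, 0, 0⟩
  h301 := ⟨0, 28794368, 0, 0⟩
  h310 := ⟨0, 2260914496, 0, 0⟩
  h400 := ⟨694784, 0, 0, 0⟩
  h401 := ⟨0, 462848, 0, 0⟩
  h410 := ⟨0, 0, 0, 0⟩
  h500 := ⟨0, 1038336, 0, 0⟩
  h501 := ⟨0, 0, 0, 0⟩
  h600 := ⟨174720, 0, 0, 0⟩
  h700 := ⟨0, 0, 0, 0⟩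
  h800 := ⟨0, 0, 0, 0⟩
  m000 := ⟨1099435081728, 0, 0, 0⟩
  m001 := ⟨0, 668794880, 0, 0⟩
  m002 := ⟨2113077248, 0, 0, 0⟩
  m010 := ⟨140497846272, 0, 0, 0⟩
  m100 := ⟨3650682880, 0, 0, 0⟩
  m101 := ⟨87818240, 0, 0, 0⟩
  m110 := ⟨512058064896, 0, 0, 0⟩
  m200 := ⟨0, 80019456, 0, 0⟩
  m300 := ⟨11403264, 0, 0, 0⟩
  a00 := ⟨44105596928, 0, 0, 0⟩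
  a01 := ⟨0, 14407630848, 0, 0⟩
  a02 := ⟨0, 326711115776, 0, 0⟩
  a03 := ⟨1046237282304, 0, 0, 0⟩
  a10 := ⟨0, 6134126280704, 0, 0⟩
  a11 := ⟨25581386858496, 0, 0, 0⟩
  b00 := ⟨39804338176, 0, 0, 0⟩
  b01 := ⟨0, 18781044736, 0, 0⟩
  b02 := ⟨0, 279995023360, 0, 0⟩
  b03 := ⟨934782631936, 0, 0, 0⟩
  b10 := ⟨0, 6181914083328, 0, 0⟩
  b11 := ⟨21005561233408, 0, 0, 0⟩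
  t00 := ⟨515890806784, 0, 0, 0⟩
  t01 := ⟨0, 852052475904, 0, 0⟩
  t02 := ⟨0, 1227162517504, 0, 0⟩
  t03 := ⟨7288311578624, 0, 0, 0⟩
  t10 := ⟨0, 62803774930944, 0, 0⟩
  t11 := ⟨267704133091328, 0, 0, 0⟩
  s00 := ⟨9954508079104, 0, 0, 0⟩
  s01 := ⟨0, 8033589985280, 0, 0⟩
  s02 := ⟨0, 59612806184960, 0, 0⟩
  s03 := ⟨203058731089920, 0, 0, 0⟩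
  s10 := ⟨2320506945536, 0, 0, 0⟩
  s11 := ⟨2035703662903296, 0, 0, 0⟩
  g00 := ⟨24773337728, 0, 0, 0⟩
  g01 := ⟨0, 2065363456, 0, 0⟩
  g10 := ⟨5266543049984, 0, 0, 0⟩
  g11 := ⟨0, 0, 0, 0⟩
  f00 := ⟨0, 11567302080, 0, 0⟩
  f01 := ⟨104750392384, 0, 0, 0⟩
  f10 := ⟨15246171207936, 0, 0, 0⟩
  f11 := ⟨0, 0, 0, 0⟩
  l000 := ⟨0, 0, 0, 0⟩
  l001 := ⟨0, 0, 0, 0⟩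
  l002 := ⟨0, 0, 0, 0⟩
  l010 := ⟨0, 0, 0, 0⟩
  l011 := ⟨0, 0, 0, 0⟩
  l020 := ⟨0, 0, 0, 0⟩
  l100 := ⟨0, 0, 0, 0⟩
  l101 := ⟨0, 0, 0, 0⟩
  l102 := ⟨0, 0, 0, 0⟩
  l110 := ⟨0, 0, 0, 0⟩
  l111 := ⟨0, 0, 0, 0⟩
  l120 := ⟨0, 0, 0, 0⟩
  l200 := ⟨0, 0, 0, 0⟩
  l201 := ⟨0, 0, 0, 0⟩
  l210 := ⟨0, 0, 0, 0⟩
  l300 := ⟨0, 0, 0, 0⟩
  l301 := ⟨0, 0, 0, 0⟩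
  l310 := ⟨0, 0, 0, 0⟩
  l400 := ⟨0, 0, 0, 0⟩
  l401 := ⟨0, 0, 0, 0⟩
  l410 := ⟨0, 0, 0, 0⟩
  l500 := ⟨0, 0, 0, 0⟩
  l501 := ⟨0, 0, 0, 0⟩
  l510 := ⟨0, 0, 0, 0⟩
  l600 := ⟨0, 0, 0, 0⟩
  l700 := ⟨0, 0, 0, 0⟩
  l800 := ⟨0, 0, 0, 0⟩
  l900 := ⟨0, 0, 0, 0⟩
  l1000 := ⟨0, 0, 0, 0⟩
  l1100 := ⟨0, 0, 0, 0⟩
  q00 := ⟨0, 0, 0, 0⟩
  q01 := ⟨0, 0, 0, 0⟩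
  q02 := ⟨0, 0, 0, 0⟩
  q03 := ⟨0, 0, 0, 0⟩
  q10 := ⟨0, 0, 0, 0⟩
  q11 := ⟨0, 0, 0, 0⟩
  q12 := ⟨0, 0, 0, 0⟩
  q20 := ⟨0, 0, 0, 0⟩
  q21 := ⟨0, 0, 0, 0⟩
  q30 := ⟨0, 0, 0, 0⟩
  n000 := ⟨0, 0, 0, 0⟩
  n001 := ⟨0, 0, 0, 0⟩
  n002 := ⟨0, 0, 0, 0⟩
  n010 := ⟨0, 0, 0, 0⟩
  n011 := ⟨0, 0, 0, 0⟩
  n020 := ⟨0, 0, 0, 0⟩
  n100 := ⟨0, 0, 0, 0⟩
  n101 := ⟨0, 0, 0, 0⟩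
  n110 := ⟨0, 0, 0, 0⟩
  n200 := ⟨0, 0, 0, 0⟩
  n201 := ⟨0, 0, 0, 0⟩
  n210 := ⟨0, 0, 0, 0⟩
  n300 := ⟨0, 0, 0, 0⟩
  n400 := ⟨0, 0, 0, 0⟩
  n500 := ⟨0, 0, 0, 0⟩
  e00 := ⟨0, 0, 0, 0⟩
  e01 := ⟨0, 0, 0, 0⟩
  e02 := ⟨0, 0, 0, 0⟩
  e03 := ⟨0, 0, 0, 0⟩
  e10 := ⟨0, 0, 0, 0⟩
  e11 := ⟨0, 0, 0, 0⟩
  B1 := 0

def p10 : Pm where
  ec := ⟨6811549696, 0, 0, 0⟩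
  bc := ⟨0, 0, 0, 0⟩
  nn := ⟨12094627905536, 0, 0, 0⟩
  tj := ⟨26388279066624, 0, 0, 0⟩
  ca := ⟨322122547200, 0, 0, 0⟩
  cb := ⟨255013683200, 0, 0, 0⟩
  cc := ⟨0, 0, 0, 0⟩
  ax := ⟨0, 0, 0, 0⟩
  ay := ⟨0, 0, 0, 0⟩
  xa := ⟨0, 0, 0, 0⟩
  C2 := ⟨0, 0, 0, 0⟩
  wr := ⟨0, 615254065152, 0, 0⟩
  wi := ⟨5872294035456, 0, 0, 0⟩
  w1 := ⟨0, 49649821941760, 0, 0⟩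
  h000 := ⟨0, 215053440, 0, 0⟩
  h001 := ⟨630121344, 0, 0, 0⟩
  h002 := ⟨0, 417296896, 0, 0⟩
  h003 := ⟨709282176, 0, 0, 0⟩
  h010 := ⟨0, 547720776320, 0, 0⟩
  h011 := ⟨455178953856, 0, 0, 0⟩
  h012 := ⟨0, 0, 0, 0⟩
  h020 := ⟨0, 12862990599488, 0, 0⟩
  h021 := ⟨0, 0, 0, 0⟩
  h030 := ⟨0, 0, 0, 0⟩
  h100 := ⟨123512576, 0, 0, 0⟩
  h101 := ⟨0, 1050481792, 0, 0⟩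
  h102 := ⟨0, 157327168, 0, 0⟩
  h110 := ⟨0, 48403149952, 0, 0⟩
  h111 := ⟨0, 322027462464, 0, 0⟩
  h120 := ⟨0, 0, 0, 0⟩
  h200 := ⟨0, 229786688, 0, 0⟩
  h201 := ⟨248031616, 0, 0, 0⟩
  h202 := ⟨0, 11080640, 0, 0⟩
  h210 := ⟨25318262464, 0, 0, 0⟩
  h211 := ⟨0, 0, 0, 0⟩
  h300 := ⟨40323648, 0, 0, 0⟩
  h301 := ⟨0, 28794368, 0, 0⟩
  h310 := ⟨0, 2260914496, 0, 0⟩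
  h400 := ⟨694784, 0, 0, 0⟩
  h401 := ⟨0, 462848, 0, 0⟩
  h410 := ⟨0, 0, 0, 0⟩
  h500 := ⟨0, 1038336, 0, 0⟩
  h501 := ⟨0, 0, 0, 0⟩
  h600 := ⟨174720, 0, 0, 0⟩
  h700 := ⟨0, 0, 0, 0⟩
  h800 := ⟨0, 0, 0, 0⟩
  m000 := ⟨1099544395776, 0, 0, 0⟩
  m001 := ⟨0, 541327360, 0, 0⟩
  m002 := ⟨1468006400, 0, 0, 0⟩
  m010 := ⟨120832589824, 0, 0, 0⟩
  m100 := ⟨3600416768, 0, 0, 0⟩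
  m101 := ⟨84738048, 0, 0, 0⟩
  m110 := ⟨513729888256, 0, 0, 0⟩
  m200 := ⟨0, 68222976, 0, 0⟩
  m300 := ⟨9895936, 0, 0, 0⟩
  a00 := ⟨39804338176, 0, 0, 0⟩
  a01 := ⟨0, 18781044736, 0, 0⟩
  a02 := ⟨0, 279995023360, 0, 0⟩
  a03 := ⟨934782631936, 0, 0, 0⟩
  a10 := ⟨0, 6181914083328, 0, 0⟩
  a11 := ⟨21005561233408, 0, 0, 0⟩
  b00 := ⟨35909926912, 0, 0, 0⟩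
  b01 := ⟨0, 22010068992, 0, 0⟩
  b02 := ⟨0, 245267365888, 0, 0⟩
  b03 := ⟨871789821952, 0, 0, 0⟩
  b10 := ⟨0, 6142576230400, 0, 0⟩
  b11 := ⟨16335355379712, 0, 0, 0⟩
  t00 := ⟨465611784192, 0, 0, 0⟩
  t01 := ⟨0, 804909219840, 0, 0⟩
  t02 := ⟨0, 991198117888, 0, 0⟩
  t03 := ⟨6574210875392, 0, 0, 0⟩
  t10 := ⟨0, 64398503706624, 0, 0⟩
  t11 := ⟨228769736687616, 0, 0, 0⟩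
  s00 := ⟨10470398885888, 0, 0, 0⟩
  s01 := ⟨0, 8885642461184, 0, 0⟩
  s02 := ⟨0, 60839968702464, 0, 0⟩
  s03 := ⟨210347042668544, 0, 0, 0⟩
  s10 := ⟨0, 60483267985408, 0, 0⟩
  s11 := ⟨2303407795994624, 0, 0, 0⟩
  g00 := ⟨24773337728, 0, 0, 0⟩
  g01 := ⟨0, 2065363456, 0, 0⟩
  g10 := ⟨5266543049984, 0, 0, 0⟩
  g11 := ⟨0, 0, 0, 0⟩
  f00 := ⟨0, 11567302080, 0, 0⟩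
  f01 := ⟨104750392384, 0, 0, 0⟩
  f10 := ⟨15246171207936, 0, 0, 0⟩
  f11 := ⟨0, 0, 0, 0⟩
  l000 := ⟨0, 0, 0, 0⟩
  l001 := ⟨0, 0, 0, 0⟩
  l002 := ⟨0, 0, 0, 0⟩
  l010 := ⟨0, 0, 0, 0⟩
  l011 := ⟨0, 0, 0, 0⟩
  l020 := ⟨0, 0, 0, 0⟩
  l100 := ⟨0, 0, 0, 0⟩
  l101 := ⟨0, 0, 0, 0⟩
  l102 := ⟨0, 0, 0, 0⟩
  l110 := ⟨0, 0, 0, 0⟩
  l111 := ⟨0, 0, 0, 0⟩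
  l120 := ⟨0, 0, 0, 0⟩
  l200 := ⟨0, 0, 0, 0⟩
  l201 := ⟨0, 0, 0, 0⟩
  l210 := ⟨0, 0, 0, 0⟩
  l300 := ⟨0, 0, 0, 0⟩
  l301 := ⟨0, 0, 0, 0⟩
  l310 := ⟨0, 0, 0, 0⟩
  l400 := ⟨0, 0, 0, 0⟩
  l401 := ⟨0, 0, 0, 0⟩
  l410 := ⟨0, 0, 0, 0⟩
  l500 := ⟨0, 0, 0, 0⟩
  l501 := ⟨0, 0, 0, 0⟩
  l510 := ⟨0, 0, 0, 0⟩
  l600 := ⟨0, 0, 0, 0⟩
  l700 := ⟨0, 0, 0, 0⟩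
  l800 := ⟨0, 0, 0, 0⟩
  l900 := ⟨0, 0, 0, 0⟩
  l1000 := ⟨0, 0, 0, 0⟩
  l1100 := ⟨0, 0, 0, 0⟩
  q00 := ⟨0, 0, 0, 0⟩
  q01 := ⟨0, 0, 0, 0⟩
  q02 := ⟨0, 0, 0, 0⟩
  q03 := ⟨0, 0, 0, 0⟩
  q10 := ⟨0, 0, 0, 0⟩
  q11 := ⟨0, 0, 0, 0⟩
  q12 := ⟨0, 0, 0, 0⟩
  q20 := ⟨0, 0, 0, 0⟩
  q21 := ⟨0, 0, 0, 0⟩
  q30 := ⟨0, 0, 0, 0⟩
  n000 := ⟨0, 0, 0, 0⟩
  n001 := ⟨0, 0, 0, 0⟩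
  n002 := ⟨0, 0, 0, 0⟩
  n010 := ⟨0, 0, 0, 0⟩
  n011 := ⟨0, 0, 0, 0⟩
  n020 := ⟨0, 0, 0, 0⟩
  n100 := ⟨0, 0, 0, 0⟩
  n101 := ⟨0, 0, 0, 0⟩
  n110 := ⟨0, 0, 0, 0⟩
  n200 := ⟨0, 0, 0, 0⟩
  n201 := ⟨0, 0, 0, 0⟩
  n210 := ⟨0, 0, 0, 0⟩
  n300 := ⟨0, 0, 0, 0⟩
  n400 := ⟨0, 0, 0, 0⟩
  n500 := ⟨0, 0, 0, 0⟩
  e00 := ⟨0, 0, 0, 0⟩
  e01 := ⟨0, 0, 0, 0⟩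
  e02 := ⟨0, 0, 0, 0⟩
  e03 := ⟨0, 0, 0, 0⟩
  e10 := ⟨0, 0, 0, 0⟩
  e11 := ⟨0, 0, 0, 0⟩
  B1 := 0

def p11 : Pm where
  ec := ⟨6811549696, 0, 0, 0⟩
  bc := ⟨0, 0, 0, 0⟩
  nn := ⟨13194139533312, 0, 0, 0⟩
  tj := ⟨28587302322176, 0, 0, 0⟩
  ca := ⟨255013683200, 0, 0, 0⟩
  cb := ⟨187904819200, 0, 0, 0⟩
  cc := ⟨0, 0, 0, 0⟩
  ax := ⟨0, 0, 0, 0⟩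
  ay := ⟨0, 0, 0, 0⟩
  xa := ⟨0, 0, 0, 0⟩
  C2 := ⟨0, 0, 0, 0⟩
  wr := ⟨0, 615254065152, 0, 0⟩
  wi := ⟨5872294035456, 0, 0, 0⟩
  w1 := ⟨0, 49649821941760, 0, 0⟩
  h000 := ⟨0, 215053440, 0, 0⟩
  h001 := ⟨630121344, 0, 0, 0⟩
  h002 := ⟨0, 417296896, 0, 0⟩
  h003 := ⟨709282176, 0, 0, 0⟩
  h010 := ⟨0, 547720776320, 0, 0⟩
  h011 := ⟨455178953856, 0, 0, 0⟩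
  h012 := ⟨0, 0, 0, 0⟩
  h020 := ⟨0, 12862990599488, 0, 0⟩
  h021 := ⟨0, 0, 0, 0⟩
  h030 := ⟨0, 0, 0, 0⟩
  h100 := ⟨123512576, 0, 0, 0⟩
  h101 := ⟨0, 1050481792, 0, 0⟩
  h102 := ⟨0, 157327168, 0, 0⟩
  h110 := ⟨0, 48403149952, 0, 0⟩
  h111 := ⟨0, 322027462464, 0, 0⟩
  h120 := ⟨0, 0, 0, 0⟩
  h200 := ⟨0, 229786688, 0, 0⟩
  h201 := ⟨248031616, 0, 0, 0⟩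
  h202 := ⟨0, 11080640, 0, 0⟩
  h210 := ⟨25318262464, 0, 0, 0⟩
  h211 := ⟨0, 0, 0, 0⟩
  h300 := ⟨40323648, 0, 0, 0⟩
  h301 := ⟨0, 28794368, 0, 0⟩
  h310 := ⟨0, 2260914496, 0, 0⟩
  h400 := ⟨694784, 0, 0, 0⟩
  h401 := ⟨0, 462848, 0, 0⟩
  h410 := ⟨0, 0, 0, 0⟩
  h500 := ⟨0, 1038336, 0, 0⟩
  h501 := ⟨0, 0, 0, 0⟩
  h600 := ⟨174720, 0, 0, 0⟩
  h700 := ⟨0, 0, 0, 0⟩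
  h800 := ⟨0, 0, 0, 0⟩
  m000 := ⟨1099641323520, 0, 0, 0⟩
  m001 := ⟨0, 519438336, 0, 0⟩
  m002 := ⟨1341587456, 0, 0, 0⟩
  m010 := ⟨104588705792, 0, 0, 0⟩
  m100 := ⟨3554738176, 0, 0, 0⟩
  m101 := ⟨78249984, 0, 0, 0⟩
  m110 := ⟨519160594432, 0, 0, 0⟩
  m200 := ⟨0, 57409536, 0, 0⟩
  m300 := ⟨8585216, 0, 0, 0⟩
  a00 := ⟨35909926912, 0, 0, 0⟩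
  a01 := ⟨0, 22010068992, 0, 0⟩
  a02 := ⟨0, 245267365888, 0, 0⟩
  a03 := ⟨871789821952, 0, 0, 0⟩
  a10 := ⟨0, 6142576230400, 0, 0⟩
  a11 := ⟨16335355379712, 0, 0, 0⟩
  b00 := ⟨32379240448, 0, 0, 0⟩
  b01 := ⟨0, 24032772096, 0, 0⟩
  b02 := ⟨0, 208767614976, 0, 0⟩
  b03 := ⟨783903948800, 0, 0, 0⟩
  b10 := ⟨0, 6102612312064, 0, 0⟩
  b11 := ⟨15197001744384, 0, 0, 0⟩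
  t00 := ⟨420078092288, 0, 0, 0⟩
  t01 := ⟨0, 761533497344, 0, 0⟩
  t02 := ⟨0, 827620917248, 0, 0⟩
  t03 := ⟨6245255479296, 0, 0, 0⟩
  t10 := ⟨0, 64884650409984, 0, 0⟩
  t11 := ⟨187018589503488, 0, 0, 0⟩
  s00 := ⟨10936010670080, 0, 0, 0⟩
  s01 := ⟨0, 9690551681024, 0, 0⟩
  s02 := ⟨0, 61831166820352, 0, 0⟩
  s03 := ⟨216921253543936, 0, 0, 0⟩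
  s10 := ⟨0, 124881771692032, 0, 0⟩
  s11 := ⟨2532177532682240, 0, 0, 0⟩
  g00 := ⟨24773337728, 0, 0, 0⟩
  g01 := ⟨0, 2065363456, 0, 0⟩
  g10 := ⟨5266543049984, 0, 0, 0⟩
  g11 := ⟨0, 0, 0, 0⟩
  f00 := ⟨0, 11567302080, 0, 0⟩
  f01 := ⟨104750392384, 0, 0, 0⟩
  f10 := ⟨15246171207936, 0, 0, 0⟩
  f11 := ⟨0, 0, 0, 0⟩
  l000 := ⟨0, 0, 0, 0⟩
  l001 := ⟨0, 0, 0, 0⟩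
  l002 := ⟨0, 0, 0, 0⟩
  l010 := ⟨0, 0, 0, 0⟩
  l011 := ⟨0, 0, 0, 0⟩
  l020 := ⟨0, 0, 0, 0⟩
  l100 := ⟨0, 0, 0, 0⟩
  l101 := ⟨0, 0, 0, 0⟩
  l102 := ⟨0, 0, 0, 0⟩
  l110 := ⟨0, 0, 0, 0⟩
  l111 := ⟨0, 0, 0, 0⟩
  l120 := ⟨0, 0, 0, 0⟩
  l200 := ⟨0, 0, 0, 0⟩
  l201 := ⟨0, 0, 0, 0⟩
  l210 := ⟨0, 0, 0, 0⟩
  l300 := ⟨0, 0, 0, 0⟩
  l301 := ⟨0, 0, 0, 0⟩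
  l310 := ⟨0, 0, 0, 0⟩
  l400 := ⟨0, 0, 0, 0⟩
  l401 := ⟨0, 0, 0, 0⟩
  l410 := ⟨0, 0, 0, 0⟩
  l500 := ⟨0, 0, 0, 0⟩
  l501 := ⟨0, 0, 0, 0⟩
  l510 := ⟨0, 0, 0, 0⟩
  l600 := ⟨0, 0, 0, 0⟩
  l700 := ⟨0, 0, 0, 0⟩
  l800 := ⟨0, 0, 0, 0⟩
  l900 := ⟨0, 0, 0, 0⟩
  l1000 := ⟨0, 0, 0, 0⟩
  l1100 := ⟨0, 0, 0, 0⟩
  q00 := ⟨0, 0, 0, 0⟩
  q01 := ⟨0, 0, 0, 0⟩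
  q02 := ⟨0, 0, 0, 0⟩
  q03 := ⟨0, 0, 0, 0⟩
  q10 := ⟨0, 0, 0, 0⟩
  q11 := ⟨0, 0, 0, 0⟩
  q12 := ⟨0, 0, 0, 0⟩
  q20 := ⟨0, 0, 0, 0⟩
  q21 := ⟨0, 0, 0, 0⟩
  q30 := ⟨0, 0, 0, 0⟩
  n000 := ⟨0, 0, 0, 0⟩
  n001 := ⟨0, 0, 0, 0⟩
  n002 := ⟨0, 0, 0, 0⟩
  n010 := ⟨0, 0, 0, 0⟩
  n011 := ⟨0, 0, 0, 0⟩
  n020 := ⟨0, 0, 0, 0⟩
  n100 := ⟨0, 0, 0, 0⟩
  n101 := ⟨0, 0, 0, 0⟩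
  n110 := ⟨0, 0, 0, 0⟩
  n200 := ⟨0, 0, 0, 0⟩
  n201 := ⟨0, 0, 0, 0⟩
  n210 := ⟨0, 0, 0, 0⟩
  n300 := ⟨0, 0, 0, 0⟩
  n400 := ⟨0, 0, 0, 0⟩
  n500 := ⟨0, 0, 0, 0⟩
  e00 := ⟨0, 0, 0, 0⟩
  e01 := ⟨0, 0, 0, 0⟩
  e02 := ⟨0, 0, 0, 0⟩
  e03 := ⟨0, 0, 0, 0⟩
  e10 := ⟨0, 0, 0, 0⟩
  e11 := ⟨0, 0, 0, 0⟩
  B1 := 0

def p12 : Pm where
  ec := ⟨6811549696, 0, 0, 0⟩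
  bc := ⟨0, 0, 0, 0⟩
  nn := ⟨14293651161088, 0, 0, 0⟩
  tj := ⟨30786325577728, 0, 0, 0⟩
  ca := ⟨187904819200, 0, 0, 0⟩
  cb := ⟨122138132480, 0, 0, 0⟩
  cc := ⟨0, 0, 0, 0⟩
  ax := ⟨0, 0, 0, 0⟩
  ay := ⟨0, 0, 0, 0⟩
  xa := ⟨0, 0, 0, 0⟩
  C2 := ⟨0, 0, 0, 0⟩
  wr := ⟨0, 615254065152, 0, 0⟩
  wi := ⟨5872294035456, 0, 0, 0⟩
  w1 := ⟨0, 49649821941760, 0, 0⟩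
  h000 := ⟨0, 215053440, 0, 0⟩
  h001 := ⟨630121344, 0, 0, 0⟩
  h002 := ⟨0, 417296896, 0, 0⟩
  h003 := ⟨709282176, 0, 0, 0⟩
  h010 := ⟨0, 547720776320, 0, 0⟩
  h011 := ⟨455178953856, 0, 0, 0⟩
  h012 := ⟨0, 0, 0, 0⟩
  h020 := ⟨0, 12862990599488, 0, 0⟩
  h021 := ⟨0, 0, 0, 0⟩
  h030 := ⟨0, 0, 0, 0⟩
  h100 := ⟨123512576, 0, 0, 0⟩
  h101 := ⟨0, 1050481792, 0, 0⟩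
  h102 := ⟨0, 157327168, 0, 0⟩
  h110 := ⟨0, 48403149952, 0, 0⟩
  h111 := ⟨0, 322027462464, 0, 0⟩
  h120 := ⟨0, 0, 0, 0⟩
  h200 := ⟨0, 229786688, 0, 0⟩
  h201 := ⟨248031616, 0, 0, 0⟩
  h202 := ⟨0, 11080640, 0, 0⟩
  h210 := ⟨25318262464, 0, 0, 0⟩
  h211 := ⟨0, 0, 0, 0⟩
  h300 := ⟨40323648, 0, 0, 0⟩
  h301 := ⟨0, 28794368, 0, 0⟩
  h310 := ⟨0, 2260914496, 0, 0⟩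
  h400 := ⟨694784, 0, 0, 0⟩
  h401 := ⟨0, 462848, 0, 0⟩
  h410 := ⟨0, 0, 0, 0⟩
  h500 := ⟨0, 1038336, 0, 0⟩
  h501 := ⟨0, 0, 0, 0⟩
  h600 := ⟨174720, 0, 0, 0⟩
  h700 := ⟨0, 0, 0, 0⟩
  h800 := ⟨0, 0, 0, 0⟩
  m000 := ⟨1099721080832, 0, 0, 0⟩
  m001 := ⟨0, 453967872, 0, 0⟩
  m002 := ⟨1081081856, 0, 0, 0⟩
  m010 := ⟨93060268032, 0, 0, 0⟩
  m100 := ⟨3513974784, 0, 0, 0⟩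
  m101 := ⟨73400320, 0, 0, 0⟩
  m110 := ⟨522373038080, 0, 0, 0⟩
  m200 := ⟨0, 47775744, 0, 0⟩
  m300 := ⟨7405568, 0, 0, 0⟩
  a00 := ⟨32379240448, 0, 0, 0⟩
  a01 := ⟨0, 24032772096, 0, 0⟩
  a02 := ⟨0, 208767614976, 0, 0⟩
  a03 := ⟨783903948800, 0, 0, 0⟩
  a10 := ⟨0, 6102612312064, 0, 0⟩
  a11 := ⟨15197001744384, 0, 0, 0⟩
  b00 := ⟨29185802240, 0, 0, 0⟩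
  b01 := ⟨0, 25533546496, 0, 0⟩
  b02 := ⟨0, 167431897088, 0, 0⟩
  b03 := ⟨667929018368, 0, 0, 0⟩
  b10 := ⟨0, 6046105403392, 0, 0⟩
  b11 := ⟨16132056088576, 0, 0, 0⟩
  t00 := ⟨378816495616, 0, 0, 0⟩
  t01 := ⟨0, 722128666624, 0, 0⟩
  t02 := ⟨0, 562336235520, 0, 0⟩
  t03 := ⟨5464925798400, 0, 0, 0⟩
  t10 := ⟨0, 65222875938816, 0, 0⟩
  t11 := ⟨178376922890240, 0, 0, 0⟩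
  s00 := ⟨11356088762368, 0, 0, 0⟩
  s01 := ⟨0, 10452085178368, 0, 0⟩
  s02 := ⟨0, 62658787737600, 0, 0⟩
  s03 := ⟨223166509023232, 0, 0, 0⟩
  s10 := ⟨0, 189766422102016, 0, 0⟩
  s11 := ⟨2719196122185728, 0, 0, 0⟩
  g00 := ⟨24773337728, 0, 0, 0⟩
  g01 := ⟨0, 2065363456, 0, 0⟩
  g10 := ⟨5266543049984, 0, 0, 0⟩
  g11 := ⟨0, 0, 0, 0⟩
  f00 := ⟨0, 11567302080, 0, 0⟩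
  f01 := ⟨104750392384, 0, 0, 0⟩
  f10 := ⟨15246171207936, 0, 0, 0⟩
  f11 := ⟨0, 0, 0, 0⟩
  l000 := ⟨0, 0, 0, 0⟩
  l001 := ⟨0, 0, 0, 0⟩
  l002 := ⟨0, 0, 0, 0⟩
  l010 := ⟨0, 0, 0, 0⟩
  l011 := ⟨0, 0, 0, 0⟩
  l020 := ⟨0, 0, 0, 0⟩
  l100 := ⟨0, 0, 0, 0⟩
  l101 := ⟨0, 0, 0, 0⟩
  l102 := ⟨0, 0, 0, 0⟩
  l110 := ⟨0, 0, 0, 0⟩
  l111 := ⟨0, 0, 0, 0⟩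
  l120 := ⟨0, 0, 0, 0⟩
  l200 := ⟨0, 0, 0, 0⟩
  l201 := ⟨0, 0, 0, 0⟩
  l210 := ⟨0, 0, 0, 0⟩
  l300 := ⟨0, 0, 0, 0⟩
  l301 := ⟨0, 0, 0, 0⟩
  l310 := ⟨0, 0, 0, 0⟩
  l400 := ⟨0, 0, 0, 0⟩
  l401 := ⟨0, 0, 0, 0⟩
  l410 := ⟨0, 0, 0, 0⟩
  l500 := ⟨0, 0, 0, 0⟩
  l501 := ⟨0, 0, 0, 0⟩
  l510 := ⟨0, 0, 0, 0⟩
  l600 := ⟨0, 0, 0, 0⟩
  l700 := ⟨0, 0, 0, 0⟩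
  l800 := ⟨0, 0, 0, 0⟩
  l900 := ⟨0, 0, 0, 0⟩
  l1000 := ⟨0, 0, 0, 0⟩
  l1100 := ⟨0, 0, 0, 0⟩
  q00 := ⟨0, 0, 0, 0⟩
  q01 := ⟨0, 0, 0, 0⟩
  q02 := ⟨0, 0, 0, 0⟩
  q03 := ⟨0, 0, 0, 0⟩
  q10 := ⟨0, 0, 0, 0⟩
  q11 := ⟨0, 0, 0, 0⟩
  q12 := ⟨0, 0, 0, 0⟩
  q20 := ⟨0, 0, 0, 0⟩
  q21 := ⟨0, 0, 0, 0⟩
  q30 := ⟨0, 0, 0, 0⟩
  n000 := ⟨0, 0, 0, 0⟩
  n001 := ⟨0, 0, 0, 0⟩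
  n002 := ⟨0, 0, 0, 0⟩
  n010 := ⟨0, 0, 0, 0⟩
  n011 := ⟨0, 0, 0, 0⟩
  n020 := ⟨0, 0, 0, 0⟩
  n100 := ⟨0, 0, 0, 0⟩
  n101 := ⟨0, 0, 0, 0⟩
  n110 := ⟨0, 0, 0, 0⟩
  n200 := ⟨0, 0, 0, 0⟩
  n201 := ⟨0, 0, 0, 0⟩
  n210 := ⟨0, 0, 0, 0⟩
  n300 := ⟨0, 0, 0, 0⟩
  n400 := ⟨0, 0, 0, 0⟩
  n500 := ⟨0, 0, 0, 0⟩
  e00 := ⟨0, 0, 0, 0⟩
  e01 := ⟨0, 0, 0, 0⟩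
  e02 := ⟨0, 0, 0, 0⟩
  e03 := ⟨0, 0, 0, 0⟩
  e10 := ⟨0, 0, 0, 0⟩
  e11 := ⟨0, 0, 0, 0⟩
  B1 := 0

def p13 : Pm where
  ec := ⟨6811549696, 0, 0, 0⟩
  bc := ⟨0, 0, 0, 0⟩
  nn := ⟨15393162788864, 0, 0, 0⟩
  tj := ⟨32985348833280, 0, 0, 0⟩
  ca := ⟨122138132480, 0, 0, 0⟩
  cb := ⟨55029268480, 0, 0, 0⟩
  cc := ⟨0, 0, 0, 0⟩
  ax := ⟨0, 0, 0, 0⟩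
  ay := ⟨0, 0, 0, 0⟩
  xa := ⟨0, 0, 0, 0⟩
  C2 := ⟨0, 0, 0, 0⟩
  wr := ⟨0, 615254065152, 0, 0⟩
  wi := ⟨5872294035456, 0, 0, 0⟩
  w1 := ⟨0, 49649821941760, 0, 0⟩
  h000 := ⟨0, 215053440, 0, 0⟩
  h001 := ⟨630121344, 0, 0, 0⟩
  h002 := ⟨0, 417296896, 0, 0⟩
  h003 := ⟨709282176, 0, 0, 0⟩
  h010 := ⟨0, 547720776320, 0, 0⟩
  h011 := ⟨455178953856, 0, 0, 0⟩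
  h012 := ⟨0, 0, 0, 0⟩
  h020 := ⟨0, 12862990599488, 0, 0⟩
  h021 := ⟨0, 0, 0, 0⟩
  h030 := ⟨0, 0, 0, 0⟩
  h100 := ⟨123512576, 0, 0, 0⟩
  h101 := ⟨0, 1050481792, 0, 0⟩
  h102 := ⟨0, 157327168, 0, 0⟩
  h110 := ⟨0, 48403149952, 0, 0⟩
  h111 := ⟨0, 322027462464, 0, 0⟩
  h120 := ⟨0, 0, 0, 0⟩
  h200 := ⟨0, 229786688, 0, 0⟩
  h201 := ⟨248031616, 0, 0, 0⟩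
  h202 := ⟨0, 11080640, 0, 0⟩
  h210 := ⟨25318262464, 0, 0, 0⟩
  h211 := ⟨0, 0, 0, 0⟩
  h300 := ⟨40323648, 0, 0, 0⟩
  h301 := ⟨0, 28794368, 0, 0⟩
  h310 := ⟨0, 2260914496, 0, 0⟩
  h400 := ⟨694784, 0, 0, 0⟩
  h401 := ⟨0, 462848, 0, 0⟩
  h410 := ⟨0, 0, 0, 0⟩
  h500 := ⟨0, 1038336, 0, 0⟩
  h501 := ⟨0, 0, 0, 0⟩
  h600 := ⟨174720, 0, 0, 0⟩
  h700 := ⟨0, 0, 0, 0⟩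
  h800 := ⟨0, 0, 0, 0⟩
  m000 := ⟨1099788058624, 0, 0, 0⟩
  m001 := ⟨0, 458883072, 0, 0⟩
  m002 := ⟨1284833280, 0, 0, 0⟩
  m010 := ⟨80000581632, 0, 0, 0⟩
  m100 := ⟨3478126592, 0, 0, 0⟩
  m101 := ⟨60358656, 0, 0, 0⟩
  m110 := ⟨525999538176, 0, 0, 0⟩
  m200 := ⟨0, 39190528, 0, 0⟩
  m300 := ⟨6356992, 0, 0, 0⟩
  a00 := ⟨29185802240, 0, 0, 0⟩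
  a01 := ⟨0, 25533546496, 0, 0⟩
  a02 := ⟨0, 167431897088, 0, 0⟩
  a03 := ⟨667929018368, 0, 0, 0⟩
  a10 := ⟨0, 6046105403392, 0, 0⟩
  a11 := ⟨16132056088576, 0, 0, 0⟩
  b00 := ⟨26310344704, 0, 0, 0⟩
  b01 := ⟨0, 27434483712, 0, 0⟩
  b02 := ⟨0, 120062017536, 0, 0⟩
  b03 := ⟨535034789888, 0, 0, 0⟩
  b10 := ⟨0, 5897625141248, 0, 0⟩
  b11 := ⟨15800777048064, 0, 0, 0⟩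
  t00 := ⟨341577498624, 0, 0, 0⟩
  t01 := ⟨0, 686999404544, 0, 0⟩
  t02 := ⟨0, 195971121152, 0, 0⟩
  t03 := ⟨4235542790144, 0, 0, 0⟩
  t10 := ⟨0, 65111240146944, 0, 0⟩
  t11 := ⟨189306147110912, 0, 0, 0⟩
  s00 := ⟨11734905257984, 0, 0, 0⟩
  s01 := ⟨0, 11174213844992, 0, 0⟩
  s02 := ⟨0, 63221123973120, 0, 0⟩
  s03 := ⟨228631434821632, 0, 0, 0⟩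
  s10 := ⟨0, 254989298040832, 0, 0⟩
  s11 := ⟨2897573045075968, 0, 0, 0⟩
  g00 := ⟨24773337728, 0, 0, 0⟩
  g01 := ⟨0, 2065363456, 0, 0⟩
  g10 := ⟨5266543049984, 0, 0, 0⟩
  g11 := ⟨0, 0, 0, 0⟩
  f00 := ⟨0, 11567302080, 0, 0⟩
  f01 := ⟨104750392384, 0, 0, 0⟩
  f10 := ⟨15246171207936, 0, 0, 0⟩
  f11 := ⟨0, 0, 0, 0⟩
  l000 := ⟨0, 0, 0, 0⟩
  l001 := ⟨0, 0, 0, 0⟩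
  l002 := ⟨0, 0, 0, 0⟩
  l010 := ⟨0, 0, 0, 0⟩
  l011 := ⟨0, 0, 0, 0⟩
  l020 := ⟨0, 0, 0, 0⟩
  l100 := ⟨0, 0, 0, 0⟩
  l101 := ⟨0, 0, 0, 0⟩
  l102 := ⟨0, 0, 0, 0⟩
  l110 := ⟨0, 0, 0, 0⟩
  l111 := ⟨0, 0, 0, 0⟩
  l120 := ⟨0, 0, 0, 0⟩
  l200 := ⟨0, 0, 0, 0⟩
  l201 := ⟨0, 0, 0, 0⟩
  l210 := ⟨0, 0, 0, 0⟩
  l300 := ⟨0, 0, 0, 0⟩
  l301 := ⟨0, 0, 0, 0⟩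
  l310 := ⟨0, 0, 0, 0⟩
  l400 := ⟨0, 0, 0, 0⟩
  l401 := ⟨0, 0, 0, 0⟩
  l410 := ⟨0, 0, 0, 0⟩
  l500 := ⟨0, 0, 0, 0⟩
  l501 := ⟨0, 0, 0, 0⟩
  l510 := ⟨0, 0, 0, 0⟩
  l600 := ⟨0, 0, 0, 0⟩
  l700 := ⟨0, 0, 0, 0⟩
  l800 := ⟨0, 0, 0, 0⟩
  l900 := ⟨0, 0, 0, 0⟩
  l1000 := ⟨0, 0, 0, 0⟩
  l1100 := ⟨0, 0, 0, 0⟩
  q00 := ⟨0, 0, 0, 0⟩
  q01 := ⟨0, 0, 0, 0⟩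
  q02 := ⟨0, 0, 0, 0⟩
  q03 := ⟨0, 0, 0, 0⟩
  q10 := ⟨0, 0, 0, 0⟩
  q11 := ⟨0, 0, 0, 0⟩
  q12 := ⟨0, 0, 0, 0⟩
  q20 := ⟨0, 0, 0, 0⟩
  q21 := ⟨0, 0, 0, 0⟩
  q30 := ⟨0, 0, 0, 0⟩
  n000 := ⟨0, 0, 0, 0⟩
  n001 := ⟨0, 0, 0, 0⟩
  n002 := ⟨0, 0, 0, 0⟩
  n010 := ⟨0, 0, 0, 0⟩
  n011 := ⟨0, 0, 0, 0⟩
  n020 := ⟨0, 0, 0, 0⟩
  n100 := ⟨0, 0, 0, 0⟩
  n101 := ⟨0, 0, 0, 0⟩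
  n110 := ⟨0, 0, 0, 0⟩
  n200 := ⟨0, 0, 0, 0⟩
  n201 := ⟨0, 0, 0, 0⟩
  n210 := ⟨0, 0, 0, 0⟩
  n300 := ⟨0, 0, 0, 0⟩
  n400 := ⟨0, 0, 0, 0⟩
  n500 := ⟨0, 0, 0, 0⟩
  e00 := ⟨0, 0, 0, 0⟩
  e01 := ⟨0, 0, 0, 0⟩
  e02 := ⟨0, 0, 0, 0⟩
  e03 := ⟨0, 0, 0, 0⟩
  e10 := ⟨0, 0, 0, 0⟩
  e11 := ⟨0, 0, 0, 0⟩
  B1 := 0

def p14 : Pm where
  ec := ⟨6811549696, 0, 0, 0⟩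
  bc := ⟨0, 0, 0, 0⟩
  nn := ⟨16492674416640, 0, 0, 0⟩
  tj := ⟨35184372088832, 0, 0, 0⟩
  ca := ⟨55029268480, 0, 0, 0⟩
  cb := ⟨0, 0, 0, 0⟩
  cc := ⟨0, 0, 0, 0⟩
  ax := ⟨0, 0, 0, 0⟩
  ay := ⟨274877906944, 0, 0, 0⟩
  xa := ⟨10115507290112, 0, 0, 0⟩
  C2 := ⟨1368540949504, 0, 0, 0⟩
  wr := ⟨0, 615254065152, 0, 0⟩
  wi := ⟨5872294035456, 0, 0, 0⟩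
  w1 := ⟨0, 49649821941760, 0, 0⟩
  h000 := ⟨0, 215053440, 0, 0⟩
  h001 := ⟨630121344, 0, 0, 0⟩
  h002 := ⟨0, 417296896, 0, 0⟩
  h003 := ⟨709282176, 0, 0, 0⟩
  h010 := ⟨0, 547720776320, 0, 0⟩
  h011 := ⟨455178953856, 0, 0, 0⟩
  h012 := ⟨0, 0, 0, 0⟩
  h020 := ⟨0, 12862990599488, 0, 0⟩
  h021 := ⟨0, 0, 0, 0⟩
  h030 := ⟨0, 0, 0, 0⟩
  h100 := ⟨123512576, 0, 0, 0⟩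
  h101 := ⟨0, 1050481792, 0, 0⟩
  h102 := ⟨0, 157327168, 0, 0⟩
  h110 := ⟨0, 48403149952, 0, 0⟩
  h111 := ⟨0, 322027462464, 0, 0⟩
  h120 := ⟨0, 0, 0, 0⟩
  h200 := ⟨0, 229786688, 0, 0⟩
  h201 := ⟨248031616, 0, 0, 0⟩
  h202 := ⟨0, 11080640, 0, 0⟩
  h210 := ⟨25318262464, 0, 0, 0⟩
  h211 := ⟨0, 0, 0, 0⟩
  h300 := ⟨40323648, 0, 0, 0⟩
  h301 := ⟨0, 28794368, 0, 0⟩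
  h310 := ⟨0, 2260914496, 0, 0⟩
  h400 := ⟨694784, 0, 0, 0⟩
  h401 := ⟨0, 462848, 0, 0⟩
  h410 := ⟨0, 0, 0, 0⟩
  h500 := ⟨0, 1038336, 0, 0⟩
  h501 := ⟨0, 0, 0, 0⟩
  h600 := ⟨174720, 0, 0, 0⟩
  h700 := ⟨0, 0, 0, 0⟩
  h800 := ⟨0, 0, 0, 0⟩
  m000 := ⟨1099735433216, 0, 0, 0⟩
  m001 := ⟨0, 292159488, 0, 0⟩
  m002 := ⟨659226624, 0, 0, 0⟩
  m010 := ⟨26579632128, 0, 0, 0⟩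
  m100 := ⟨3429498880, 0, 0, 0⟩
  m101 := ⟨29097984, 0, 0, 0⟩
  m110 := ⟨543220563968, 0, 0, 0⟩
  m200 := ⟨0, 19595264, 0, 0⟩
  m300 := ⟨3276800, 0, 0, 0⟩
  a00 := ⟨26310344704, 0, 0, 0⟩
  a01 := ⟨0, 27434483712, 0, 0⟩
  a02 := ⟨0, 120062017536, 0, 0⟩
  a03 := ⟨535034789888, 0, 0, 0⟩
  a10 := ⟨0, 5897625141248, 0, 0⟩
  a11 := ⟨15800777048064, 0, 0, 0⟩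
  b00 := ⟨0, 0, 0, 0⟩
  b01 := ⟨0, 0, 0, 0⟩
  b02 := ⟨0, 0, 0, 0⟩
  b03 := ⟨0, 0, 0, 0⟩
  b10 := ⟨0, 0, 0, 0⟩
  b11 := ⟨0, 0, 0, 0⟩
  t00 := ⟨308028309504, 0, 0, 0⟩
  t01 := ⟨0, 666608467968, 0, 0⟩
  t02 := ⟨257230045184, 0, 0, 0⟩
  t03 := ⟨2831088680960, 0, 0, 0⟩
  t10 := ⟨0, 63913292922880, 0, 0⟩
  t11 := ⟨187150129430528, 0, 0, 0⟩
  s00 := ⟨12076482756608, 0, 0, 0⟩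
  s01 := ⟨0, 11861213249536, 0, 0⟩
  s02 := ⟨0, 63417095094272, 0, 0⟩
  s03 := ⟨232866977611776, 0, 0, 0⟩
  s10 := ⟨0, 320100538187776, 0, 0⟩
  s11 := ⟨3086879192186880, 0, 0, 0⟩
  g00 := ⟨24773337728, 0, 0, 0⟩
  g01 := ⟨0, 2065363456, 0, 0⟩
  g10 := ⟨5266543049984, 0, 0, 0⟩
  g11 := ⟨0, 0, 0, 0⟩
  f00 := ⟨0, 11567302080, 0, 0⟩
  f01 := ⟨104750392384, 0, 0, 0⟩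
  f10 := ⟨15246171207936, 0, 0, 0⟩
  f11 := ⟨0, 0, 0, 0⟩
  l000 := ⟨0, 0, 0, 0⟩
  l001 := ⟨0, 0, 0, 0⟩
  l002 := ⟨0, 0, 0, 0⟩
  l010 := ⟨0, 0, 0, 0⟩
  l011 := ⟨0, 0, 0, 0⟩
  l020 := ⟨0, 0, 0, 0⟩
  l100 := ⟨0, 0, 0, 0⟩
  l101 := ⟨0, 0, 0, 0⟩
  l102 := ⟨0, 0, 0, 0⟩
  l110 := ⟨0, 0, 0, 0⟩
  l111 := ⟨0, 0, 0, 0⟩
  l120 := ⟨0, 0, 0, 0⟩
  l200 := ⟨0, 0, 0, 0⟩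
  l201 := ⟨0, 0, 0, 0⟩
  l210 := ⟨0, 0, 0, 0⟩
  l300 := ⟨0, 0, 0, 0⟩
  l301 := ⟨0, 0, 0, 0⟩
  l310 := ⟨0, 0, 0, 0⟩
  l400 := ⟨0, 0, 0, 0⟩
  l401 := ⟨0, 0, 0, 0⟩
  l410 := ⟨0, 0, 0, 0⟩
  l500 := ⟨0, 0, 0, 0⟩
  l501 := ⟨0, 0, 0, 0⟩
  l510 := ⟨0, 0, 0, 0⟩
  l600 := ⟨0, 0, 0, 0⟩
  l700 := ⟨0, 0, 0, 0⟩
  l800 := ⟨0, 0, 0, 0⟩
  l900 := ⟨0, 0, 0, 0⟩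
  l1000 := ⟨0, 0, 0, 0⟩
  l1100 := ⟨0, 0, 0, 0⟩
  q00 := ⟨0, 0, 0, 0⟩
  q01 := ⟨0, 0, 0, 0⟩
  q02 := ⟨0, 0, 0, 0⟩
  q03 := ⟨0, 0, 0, 0⟩
  q10 := ⟨0, 0, 0, 0⟩
  q11 := ⟨0, 0, 0, 0⟩
  q12 := ⟨0, 0, 0, 0⟩
  q20 := ⟨0, 0, 0, 0⟩
  q21 := ⟨0, 0, 0, 0⟩
  q30 := ⟨0, 0, 0, 0⟩
  n000 := ⟨0, 0, 0, 0⟩
  n001 := ⟨0, 0, 0, 0⟩
  n002 := ⟨0, 0, 0, 0⟩
  n010 := ⟨0, 0, 0, 0⟩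
  n011 := ⟨0, 0, 0, 0⟩
  n020 := ⟨0, 0, 0, 0⟩
  n100 := ⟨0, 0, 0, 0⟩
  n101 := ⟨0, 0, 0, 0⟩
  n110 := ⟨0, 0, 0, 0⟩
  n200 := ⟨0, 0, 0, 0⟩
  n201 := ⟨0, 0, 0, 0⟩
  n210 := ⟨0, 0, 0, 0⟩
  n300 := ⟨0, 0, 0, 0⟩
  n400 := ⟨0, 0, 0, 0⟩
  n500 := ⟨0, 0, 0, 0⟩
  e00 := ⟨0, 0, 0, 0⟩
  e01 := ⟨0, 0, 0, 0⟩
  e02 := ⟨0, 0, 0, 0⟩
  e03 := ⟨0, 0, 0, 0⟩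
  e10 := ⟨0, 0, 0, 0⟩
  e11 := ⟨0, 0, 0, 0⟩
  B1 := 1979120091136

def pF : Pm where
  ec := ⟨6811549696, 0, 0, 0⟩
  bc := ⟨0, 0, 0, 0⟩
  nn := ⟨0, 0, 0, 0⟩
  tj := ⟨2199023255552, 0, 0, 0⟩
  ca := ⟨989453090816, 0, 0, 0⟩
  cb := ⟨0, 0, 0, 0⟩
  cc := ⟨879662989312, 0, 0, 0⟩
  ax := ⟨0, 0, 0, 0⟩
  ay := ⟨0, 0, 0, 0⟩
  xa := ⟨0, 0, 0, 0⟩
  C2 := ⟨0, 0, 0, 0⟩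
  wr := ⟨0, 615254065152, 0, 0⟩
  wi := ⟨5872294035456, 0, 0, 0⟩
  w1 := ⟨0, 49649821941760, 0, 0⟩
  h000 := ⟨0, 215053440, 0, 0⟩
  h001 := ⟨630121344, 0, 0, 0⟩
  h002 := ⟨0, 417296896, 0, 0⟩
  h003 := ⟨709282176, 0, 0, 0⟩
  h010 := ⟨0, 547720776320, 0, 0⟩
  h011 := ⟨455178953856, 0, 0, 0⟩
  h012 := ⟨0, 0, 0, 0⟩
  h020 := ⟨0, 12862990599488, 0, 0⟩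
  h021 := ⟨0, 0, 0, 0⟩
  h030 := ⟨0, 0, 0, 0⟩
  h100 := ⟨123512576, 0, 0, 0⟩
  h101 := ⟨0, 1050481792, 0, 0⟩
  h102 := ⟨0, 157327168, 0, 0⟩
  h110 := ⟨0, 48403149952, 0, 0⟩
  h111 := ⟨0, 322027462464, 0, 0⟩
  h120 := ⟨0, 0, 0, 0⟩
  h200 := ⟨0, 229786688, 0, 0⟩
  h201 := ⟨248031616, 0, 0, 0⟩
  h202 := ⟨0, 11080640, 0, 0⟩
  h210 := ⟨25318262464, 0, 0, 0⟩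
  h211 := ⟨0, 0, 0, 0⟩
  h300 := ⟨40323648, 0, 0, 0⟩
  h301 := ⟨0, 28794368, 0, 0⟩
  h310 := ⟨0, 2260914496, 0, 0⟩
  h400 := ⟨694784, 0, 0, 0⟩
  h401 := ⟨0, 462848, 0, 0⟩
  h410 := ⟨0, 0, 0, 0⟩
  h500 := ⟨0, 1038336, 0, 0⟩
  h501 := ⟨0, 0, 0, 0⟩
  h600 := ⟨174720, 0, 0, 0⟩
  h700 := ⟨0, 0, 0, 0⟩
  h800 := ⟨0, 0, 0, 0⟩
  m000 := ⟨0, 0, 0, 0⟩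
  m001 := ⟨0, 0, 0, 0⟩
  m002 := ⟨0, 0, 0, 0⟩
  m010 := ⟨0, 0, 0, 0⟩
  m100 := ⟨0, 0, 0, 0⟩
  m101 := ⟨0, 0, 0, 0⟩
  m110 := ⟨0, 0, 0, 0⟩
  m200 := ⟨0, 0, 0, 0⟩
  m300 := ⟨0, 0, 0, 0⟩
  a00 := ⟨114721882112, 0, 0, 0⟩
  a01 := ⟨226370387968, 0, 0, 0⟩
  a02 := ⟨0, 2425570263040, 0, 0⟩
  a03 := ⟨6187266605056, 0, 0, 0⟩
  a10 := ⟨7079566114816, 0, 0, 0⟩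
  a11 := ⟨22744538873856, 0, 0, 0⟩
  b00 := ⟨0, 0, 0, 0⟩
  b01 := ⟨0, 0, 0, 0⟩
  b02 := ⟨0, 0, 0, 0⟩
  b03 := ⟨0, 0, 0, 0⟩
  b10 := ⟨0, 0, 0, 0⟩
  b11 := ⟨0, 0, 0, 0⟩
  t00 := ⟨1852664446976, 0, 0, 0⟩
  t01 := ⟨13106937856, 0, 0, 0⟩
  t02 := ⟨0, 91182989312, 0, 0⟩
  t03 := ⟨901463736320, 0, 0, 0⟩
  t10 := ⟨29154257338368, 0, 0, 0⟩
  t11 := ⟨0, 54758619807744, 0, 0⟩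
  s00 := ⟨0, 0, 0, 0⟩
  s01 := ⟨0, 0, 0, 0⟩
  s02 := ⟨0, 0, 0, 0⟩
  s03 := ⟨0, 0, 0, 0⟩
  s10 := ⟨0, 0, 0, 0⟩
  s11 := ⟨0, 0, 0, 0⟩
  g00 := ⟨24773337728, 0, 0, 0⟩
  g01 := ⟨0, 2065363456, 0, 0⟩
  g10 := ⟨5266543049984, 0, 0, 0⟩
  g11 := ⟨0, 0, 0, 0⟩
  f00 := ⟨0, 11567302080, 0, 0⟩
  f01 := ⟨104750392384, 0, 0, 0⟩
  f10 := ⟨15246171207936, 0, 0, 0⟩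
  f11 := ⟨0, 0, 0, 0⟩
  l000 := ⟨3450131162368, 0, 0, 0⟩
  l001 := ⟨8966765376, 0, 0, 0⟩
  l002 := ⟨0, 0, 0, 0⟩
  l010 := ⟨10534206681920, 0, 0, 0⟩
  l011 := ⟨0, 0, 0, 0⟩
  l020 := ⟨0, 0, 0, 0⟩
  l100 := ⟨1625521180288, 0, 0, 0⟩
  l101 := ⟨0, 60717213120, 0, 0⟩
  l102 := ⟨0, 0, 0, 0⟩
  l110 := ⟨0, 66896684990208, 0, 0⟩
  l111 := ⟨0, 0, 0, 0⟩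
  l120 := ⟨0, 0, 0, 0⟩
  l200 := ⟨825647758656, 0, 0, 0⟩
  l201 := ⟨100041573632, 0, 0, 0⟩
  l210 := ⟨167562775814400, 0, 0, 0⟩
  l300 := ⟨0, 703395473088, 0, 0⟩
  l301 := ⟨0, 258521634624, 0, 0⟩
  l310 := ⟨0, 331365825226240, 0, 0⟩
  l400 := ⟨3032323769792, 0, 0, 0⟩
  l401 := ⟨197396418112, 0, 0, 0⟩
  l410 := ⟨340972520642688, 0, 0, 0⟩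
  l500 := ⟨0, 11883599020160, 0, 0⟩
  l501 := ⟨0, 194612703808, 0, 0⟩
  l510 := ⟨0, 179997049635136, 0, 0⟩
  l600 := ⟨24424530641920, 0, 0, 0⟩
  l700 := ⟨0, 53470004261184, 0, 0⟩
  l800 := ⟨68515911489664, 0, 0, 0⟩
  l900 := ⟨0, 85989881248576, 0, 0⟩
  l1000 := ⟨56225881900416, 0, 0, 0⟩
  l1100 := ⟨0, 34293064215360, 0, 0⟩
  q00 := ⟨0, 4201877312, 0, 0⟩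
  q01 := ⟨40015943552, 0, 0, 0⟩
  q02 := ⟨0, 14892753152, 0, 0⟩
  q03 := ⟨0, 0, 0, 0⟩
  q10 := ⟨2813436501312, 0, 0, 0⟩
  q11 := ⟨0, 12183602730240, 0, 0⟩
  q12 := ⟨0, 0, 0, 0⟩
  q20 := ⟨0, 4502500115742720, 0, 0⟩
  q21 := ⟨0, 0, 0, 0⟩
  q30 := ⟨0, 0, 0, 0⟩
  n000 := ⟨1094716030976, 0, 0, 0⟩
  n001 := ⟨0, 1409548288, 0, 0⟩
  n002 := ⟨17856528384, 0, 0, 0⟩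
  n010 := ⟨1505124810752, 0, 0, 0⟩
  n011 := ⟨3979270553600, 0, 0, 0⟩
  n020 := ⟨1292433670602752, 0, 0, 0⟩
  n100 := ⟨22725591040, 0, 0, 0⟩
  n101 := ⟨1308164096, 0, 0, 0⟩
  n110 := ⟨972502466560, 0, 0, 0⟩
  n200 := ⟨0, 61753917440, 0, 0⟩
  n201 := ⟨4199153664, 0, 0, 0⟩
  n210 := ⟨11207394263040, 0, 0, 0⟩
  n300 := ⟨108303351808, 0, 0, 0⟩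
  n400 := ⟨0, 149079457792, 0, 0⟩
  n500 := ⟨0, 59531132928, 0, 0⟩
  e00 := ⟨216475107328, 0, 0, 0⟩
  e01 := ⟨471569137664, 0, 0, 0⟩
  e02 := ⟨0, 4214914416640, 0, 0⟩
  e03 := ⟨10751276548096, 0, 0, 0⟩
  e10 := ⟨12031650562048, 0, 0, 0⟩
  e11 := ⟨77563196801024, 0, 0, 0⟩
  B1 := 0

end Pool.Agent.helper12.K150
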